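import Pool.Agent.R90.Games

set_option autoImplicit false
set_option linter.unusedSectionVars false
set_option linter.unusedVariables false

/-!
# A complete simple game with three types and two shift-minimal winning types

The game has `3, 3, 5` players of its three types. In terms of the vector of the numbers of missing
players of the three types its two shift-minimal winning types are `(1, 1, 2)` and `(2, 1, 0)`. It
is 2-trade robust but not 3-trade robust.
-/

namespace Pool.Agent.R90.Games.B2

open Finset Pool.Agent.R90.Games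

/-- the numbers of players of the three types -/
def sz : Fin 3 → ℕ := ![3, 3, 5]

/-- the players: pairs of a type and an index -/
abbrev Pl := Σ h : Fin 3, Fin (sz h)

/-- the number of players of type `h` missing from `S` -/
def mis (S : Finset Pl) (h : Fin 3) : ℕ :=
  (univ.filter fun a : Fin (sz h) => (⟨h, a⟩ : Pl) ∉ S).card

/-- winning in terms of the vector of missing players: the vector of partial sums is at most
`(1, 2, 4)` or at most `(2, 3, 3)`. -/
def WinV (v0 v1 v2 : ℕ) : Prop :=
  (v0 ≤ 1 ∧ v0 + v1 ≤ 2 ∧ v0 + v1 + v2 ≤ 4) ∨ (v0 ≤ 2 ∧ v0 + v1 ≤ 3 ∧ v0 + v1 + v2 ≤ 3)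

lemma mis_anti {S T : Finset Pl} (h : S ⊆ T) (i : Fin 3) : mis T i ≤ mis S i := by
  apply card_le_card
  intro a
  simp only [mem_filter, mem_univ, true_and]
  exact fun h1 h2 => h1 (h h2)

lemma mis_le (S : Finset Pl) (i : Fin 3) : mis S i ≤ sz i := by
  calc mis S i ≤ (univ : Finset (Fin (sz i))).card := card_filter_le _ _
    _ = sz i := by simp

lemma mis_univ (i : Fin 3) : mis (univ : Finset Pl) i = 0 := by
  simp [mis]

lemma mis_empty (i : Fin 3) : mis (∅ : Finset Pl) i = sz i := by
  simp [mis]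

lemma sz0 : sz 0 = 3 := rfl
lemma sz1 : sz 1 = 3 := rfl
lemma sz2 : sz 2 = 5 := rfl

/-- the game -/
def game : SimpleGame Pl where
  Win S := WinV (mis S 0) (mis S 1) (mis S 2)
  mono S T h := by
    have h0 := mis_anti h 0
    have h1 := mis_anti h 1
    have h2 := mis_anti h 2
    unfold WinV
    omega
  empty_losing := by
    rw [mis_empty, mis_empty, mis_empty, sz0, sz1, sz2]
    unfold WinV
    omega
  all_winning := by
    rw [mis_univ, mis_univ, mis_univ]
    unfold WinV
    omega

lemma game_win (S : Finset Pl) :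
    game.Win S ↔ WinV (mis S 0) (mis S 1) (mis S 2) := Iff.rfl

/-- the indicator of the type of `p` -/
def tyi (p : Pl) (h : Fin 3) : ℕ := if p.1 = h then 1 else 0

lemma card_eq_pl (p : Pl) (h : Fin 3) :
    (univ.filter fun a : Fin (sz h) => (⟨h, a⟩ : Pl) = p).card = tyi p h := by
  unfold tyi
  split_ifs with h1
  · subst h1
    have : (univ.filter fun a : Fin (sz p.1) => (⟨p.1, a⟩ : Pl) = p) = {p.2} := by
      ext a
      simp only [mem_filter, mem_univ, true_and, mem_singleton]
      constructor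
      · intro h2
        exact eq_of_heq (Sigma.mk.inj_iff.mp (by simpa using h2 : (⟨p.1, a⟩ : Pl) = ⟨p.1, p.2⟩)).2
      · rintro rfl; rfl
    rw [this, card_singleton]
  · rw [card_eq_zero, filter_eq_empty_iff]
    intro a _ h2
    exact h1 (by rw [← h2])

lemma mis_insert {S : Finset Pl} {p : Pl} (hp : p ∉ S) (h : Fin 3) :
    mis (insert p S) h + tyi p h = mis S h := by
  rw [← card_eq_pl p h]
  unfold mis
  rw [← card_union_of_disjoint]
  · congr 1
    ext a
    simp only [mem_union, mem_filter, mem_univ, true_and, mem_insert, not_or]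
    constructor
    · rintro (h1 | h1)
      · exact h1.2
      · rw [h1]; exact hp
    · intro h1
      by_cases h2 : (⟨h, a⟩ : Pl) = p
      · exact Or.inr h2
      · exact Or.inl ⟨h2, h1⟩
  · rw [disjoint_left]
    intro a
    simp only [mem_filter, mem_univ, true_and, mem_insert, not_or]
    exact fun h1 h2 => h1.1 h2

lemma tyi_sum (p : Pl) : tyi p 0 + tyi p 1 + tyi p 2 = 1 := by
  unfold tyi
  have : ∀ h : Fin 3, ((if h = 0 then 1 else 0) + (if h = 1 then 1 else 0) +
      (if h = 2 then 1 else 0) : ℕ) = 1 := by decide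
  exact this p.1

/-- there is a coalition avoiding two given players with a prescribed vector of missing players -/
lemma exists_coal (x : Fin 3 → ℕ) (p q : Pl) (hpq : p ≠ q)
    (hx : ∀ h, x h + tyi p h + tyi q h ≤ sz h) :
    ∃ S : Finset Pl, p ∉ S ∧ q ∉ S ∧ ∀ h, mis S h = x h + tyi p h + tyi q h := by
  have h1 : ∀ h, ∃ A : Finset (Fin (sz h)), A ⊆ (univ.filter fun a : Fin (sz h) =>
      (⟨h, a⟩ : Pl) ≠ p ∧ (⟨h, a⟩ : Pl) ≠ q) ∧ A.card = x h := by
    intro h
    apply exists_subset_card_eq
    have h2 := card_eq_pl p h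
    have h3 := card_eq_pl q h
    have h4 : (univ : Finset (Fin (sz h))).card ≤
        (univ.filter fun a : Fin (sz h) => (⟨h, a⟩ : Pl) ≠ p ∧ (⟨h, a⟩ : Pl) ≠ q).card +
        (univ.filter fun a : Fin (sz h) => (⟨h, a⟩ : Pl) = p).card +
        (univ.filter fun a : Fin (sz h) => (⟨h, a⟩ : Pl) = q).card := by
      refine le_trans (card_le_card ?_) (le_trans (card_union_le _ _)
        (Nat.add_le_add_right (card_union_le _ _) _))
      intro a _
      simp only [mem_union, mem_filter, mem_univ, true_and]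
      tauto
    rw [card_univ, Fintype.card_fin, h2, h3] at h4
    have := hx h
    omega
  choose A hA1 hA2 using h1
  refine ⟨univ.filter fun r : Pl => ¬ (r = p ∨ r = q ∨ r.2 ∈ A r.1), by simp, by simp, ?_⟩
  intro h
  rw [← hA2 h, ← card_eq_pl p h, ← card_eq_pl q h, ← card_union_of_disjoint,
    ← card_union_of_disjoint]
  · unfold mis
    congr 1
    ext a
    simp only [mem_union, mem_filter, mem_univ, true_and, not_not]
    tauto
  · rw [disjoint_left]
    intro a ha
    rw [mem_union] at ha
    simp only [mem_filter, mem_univ, true_and] at ha ⊢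
    rcases ha with ha | ha
    · have := hA1 h ha
      simp only [mem_filter, mem_univ, true_and] at this
      exact this.2
    · rw [ha]; exact hpq
  · rw [disjoint_left]
    intro a ha
    have := hA1 h ha
    simp only [mem_filter, mem_univ, true_and] at this ⊢
    exact this.1

/-- there is a coalition with a prescribed vector of missing players -/
lemma exists_coal' (x : Fin 3 → ℕ) (hx : ∀ h, x h ≤ sz h) :
    ∃ S : Finset Pl, ∀ h, mis S h = x h := by
  have h1 : ∀ h, ∃ A : Finset (Fin (sz h)), A ⊆ (univ : Finset (Fin (sz h))) ∧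
      A.card = x h := by
    intro h
    apply exists_subset_card_eq
    rw [card_univ, Fintype.card_fin]
    exact hx h
  choose A hA1 hA2 using h1
  refine ⟨univ.filter fun r : Pl => ¬ r.2 ∈ A r.1, ?_⟩
  intro h
  rw [← hA2 h]
  unfold mis
  congr 1
  ext a
  simp only [mem_filter, mem_univ, true_and, not_not]

lemma game_desir (p q : Pl) : Desir game p q ↔ p.1 ≤ q.1 := by
  constructor
  · intro hd
    by_contra hlt
    rw [not_le] at hlt
    have hpq : p ≠ q := by rintro rfl; exact lt_irrefl _ hlt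
    obtain ⟨hp, p2⟩ := p
    obtain ⟨hq, q2⟩ := q
    have key : ∀ x : Fin 3 → ℕ, (∀ h, x h + tyi (⟨hp, p2⟩ : Pl) h + tyi (⟨hq, q2⟩ : Pl) h ≤ sz h) →
        WinV (x 0 + tyi (⟨hp, p2⟩ : Pl) 0) (x 1 + tyi (⟨hp, p2⟩ : Pl) 1)
          (x 2 + tyi (⟨hp, p2⟩ : Pl) 2) →
        WinV (x 0 + tyi (⟨hq, q2⟩ : Pl) 0) (x 1 + tyi (⟨hq, q2⟩ : Pl) 1)
          (x 2 + tyi (⟨hq, q2⟩ : Pl) 2) := by
      intro x hx hw
      obtain ⟨S, hS1, hS2, hS3⟩ := exists_coal x ⟨hp, p2⟩ ⟨hq, q2⟩ hpq hx
      have h1 : ∀ h, mis (insert (⟨hp, p2⟩ : Pl) S) h = x h + tyi (⟨hq, q2⟩ : Pl) h := by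
        intro h
        have := mis_insert hS1 h
        have h2 := hS3 h
        omega
      have h2 : ∀ h, mis (insert (⟨hq, q2⟩ : Pl) S) h = x h + tyi (⟨hp, p2⟩ : Pl) h := by
        intro h
        have := mis_insert hS2 h
        have h2 := hS3 h
        omega
      have h3 := hd S hS1 hS2
      rw [game_win, game_win, h1, h1, h1, h2, h2, h2] at h3
      exact h3 hw
    clear hd hpq
    have key2 : ∀ x : Fin 3 → ℕ,
        (x 0 + (if hp = 0 then 1 else 0) + (if hq = 0 then 1 else 0) ≤ 3) →
        (x 1 + (if hp = 1 then 1 else 0) + (if hq = 1 then 1 else 0) ≤ 3) →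
        (x 2 + (if hp = 2 then 1 else 0) + (if hq = 2 then 1 else 0) ≤ 5) →
        WinV (x 0 + (if hp = 0 then 1 else 0)) (x 1 + (if hp = 1 then 1 else 0))
          (x 2 + (if hp = 2 then 1 else 0)) →
        WinV (x 0 + (if hq = 0 then 1 else 0)) (x 1 + (if hq = 1 then 1 else 0))
          (x 2 + (if hq = 2 then 1 else 0)) := by
      intro x g0 g1 g2 hw
      refine key x ?_ hw
      intro h
      have : h = 0 ∨ h = 1 ∨ h = 2 := by omega
      rcases this with rfl | rfl | rfl
      · exact g0
      · exact g1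
      · exact g2
    clear key
    have hcases : (hp = 1 ∧ hq = 0) ∨ (hp = 2 ∧ hq = 0) ∨ (hp = 2 ∧ hq = 1) := by
      simp only [] at hlt
      omega
    clear p2 q2 hlt
    rcases hcases with ⟨rfl, rfl⟩ | ⟨rfl, rfl⟩ | ⟨rfl, rfl⟩
    · have := key2 ![1, 0, 2]
      simp [WinV] at this
    · have := key2 ![1, 1, 1]
      simp [WinV] at this
    · have := key2 ![1, 1, 1]
      simp [WinV] at this
  · intro hle S hp hq
    rw [game_win, game_win]
    have h0 := mis_insert hp 0
    have h1 := mis_insert hp 1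
    have h2 := mis_insert hp 2
    have g0 := mis_insert hq 0
    have g1 := mis_insert hq 1
    have g2 := mis_insert hq 2
    have t1 := tyi_sum p
    have t2 := tyi_sum q
    have t3 : tyi q 0 ≤ tyi p 0 := by
      unfold tyi; split_ifs with a b <;> omega
    have t4 : tyi q 0 + tyi q 1 ≤ tyi p 0 + tyi p 1 := by
      unfold tyi; split_ifs <;> omega
    unfold WinV
    omega

lemma game_complete : Complete game := by
  intro p q
  rw [game_desir, game_desir]
  exact le_total _ _

/-- the number of members of type `h` -/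
def cnt (S : Finset Pl) (h : Fin 3) : ℕ := (S.filter fun p => p.1 = h).card

lemma cnt_add_mis (S : Finset Pl) (h : Fin 3) : cnt S h + mis S h = sz h := by
  have h1 : cnt S h = (univ.filter fun a : Fin (sz h) => (⟨h, a⟩ : Pl) ∈ S).card := by
    unfold cnt
    symm
    apply card_bij (fun a _ => (⟨h, a⟩ : Pl))
    · intro a ha
      simp only [mem_filter, mem_univ, true_and] at ha ⊢
      exact ⟨ha, trivial⟩
    · intro a _ b _ hab
      simpa using hab
    · rintro ⟨k, b⟩ hb
      simp only [mem_filter] at hb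
      obtain ⟨hb, rfl⟩ := hb
      exact ⟨b, by simpa using hb, rfl⟩
  rw [h1]
  unfold mis
  rw [card_filter_add_card_filter_not, card_univ, Fintype.card_fin]

lemma typeOf_game (p : Pl) : typeOf game p = {q | q.1 = p.1} := by
  ext q
  simp only [typeOf, Set.mem_ofPred_eq, game_desir]
  constructor
  · rintro ⟨h1, h2⟩; exact le_antisymm h2 h1
  · intro h; exact ⟨h ▸ le_refl _, h ▸ le_refl _⟩

lemma typeVec_game (S : Finset Pl) (p : Pl) : typeVec game S p = cnt S p.1 := by
  unfold typeVec cnt
  rw [typeOf_game, ← Set.ncard_coe_finset]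
  congr 1
  ext q
  simp

lemma topCount_game (S : Finset Pl) (p : Pl) :
    topCount game S p = (S.filter fun q => q.1 ≤ p.1).card := by
  unfold topCount
  rw [← Set.ncard_coe_finset]
  congr 1
  ext q
  simp [game_desir]

lemma card_filter_le_sum (S : Finset Pl) (h : Fin 3) :
    (S.filter fun q => q.1 ≤ h).card =
      (if (0 : Fin 3) ≤ h then cnt S 0 else 0) + (if (1 : Fin 3) ≤ h then cnt S 1 else 0) +
      (if (2 : Fin 3) ≤ h then cnt S 2 else 0) := by
  rw [card_eq_sum_card_fiberwise (f := fun q : Pl => q.1) (t := univ) (fun _ _ => mem_univ _)]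
  rw [Fin.sum_univ_three]
  unfold cnt
  have : ∀ k : Fin 3, ((S.filter fun q => q.1 ≤ h).filter fun q => q.1 = k).card =
      if k ≤ h then (S.filter fun p => p.1 = k).card else 0 := by
    intro k
    rw [filter_filter]
    split_ifs with hk
    · congr 1
      ext q
      simp only [mem_filter]
      constructor
      · rintro ⟨a, _, b⟩; exact ⟨a, b⟩
      · rintro ⟨a, b⟩; exact ⟨a, b ▸ hk, b⟩
    · rw [card_eq_zero, filter_eq_empty_iff]
      rintro q _ ⟨a, b⟩
      exact hk (b ▸ a)
  rw [this, this, this]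

lemma exists_type (h : Fin 3) : ∃ p : Pl, p.1 = h := by
  have : 0 < sz h := by
    have h4 : h = 0 ∨ h = 1 ∨ h = 2 := by omega
    rcases h4 with rfl | rfl | rfl
    · rw [sz0]; omega
    · rw [sz1]; omega
    · rw [sz2]; omega
  exact ⟨⟨h, ⟨0, this⟩⟩, rfl⟩

lemma typeLe_game (S T : Finset Pl) :
    TypeLe game S T ↔ mis T 0 ≤ mis S 0 ∧ mis T 0 + mis T 1 ≤ mis S 0 + mis S 1 ∧
      mis T 0 + mis T 1 + mis T 2 ≤ mis S 0 + mis S 1 + mis S 2 := by
  have a0 := cnt_add_mis S 0
  have a1 := cnt_add_mis S 1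
  have a2 := cnt_add_mis S 2
  have b0 := cnt_add_mis T 0
  have b1 := cnt_add_mis T 1
  have b2 := cnt_add_mis T 2
  have e01 : ¬ ((1 : Fin 3) ≤ 0) := by decide
  have e02 : ¬ ((2 : Fin 3) ≤ 0) := by decide
  have e12 : ¬ ((2 : Fin 3) ≤ 1) := by decide
  have f01 : (0 : Fin 3) ≤ 1 := by decide
  have f02 : (0 : Fin 3) ≤ 2 := by decide
  have f12 : (1 : Fin 3) ≤ 2 := by decide
  constructor
  · intro h
    obtain ⟨p0, q0⟩ := exists_type 0
    obtain ⟨p1, q1⟩ := exists_type 1
    obtain ⟨p2, q2⟩ := exists_type 2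
    have h0 := h p0
    have h1 := h p1
    have h2 := h p2
    rw [topCount_game, topCount_game, card_filter_le_sum, card_filter_le_sum, q0,
      if_pos (le_refl _), if_neg e01, if_neg e02,
      if_pos (le_refl _), if_neg e01, if_neg e02] at h0
    rw [topCount_game, topCount_game, card_filter_le_sum, card_filter_le_sum, q1,
      if_pos f01, if_pos (le_refl _), if_neg e12,
      if_pos f01, if_pos (le_refl _), if_neg e12] at h1
    rw [topCount_game, topCount_game, card_filter_le_sum, card_filter_le_sum, q2,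
      if_pos f02, if_pos f12, if_pos (le_refl _),
      if_pos f02, if_pos f12, if_pos (le_refl _)] at h2
    omega
  · rintro ⟨h0, h1, h2⟩ p
    rw [topCount_game, topCount_game, card_filter_le_sum, card_filter_le_sum]
    have h4 : p.1 = 0 ∨ p.1 = 1 ∨ p.1 = 2 := by omega
    rcases h4 with q | q | q
    · rw [q, if_pos (le_refl _), if_neg e01, if_neg e02,
        if_pos (le_refl _), if_neg e01, if_neg e02]
      omega
    · rw [q, if_pos f01, if_pos (le_refl _), if_neg e12,
        if_pos f01, if_pos (le_refl _), if_neg e12]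
      omega
    · rw [q, if_pos f02, if_pos f12, if_pos (le_refl _),
        if_pos f02, if_pos f12, if_pos (le_refl _)]
      omega

lemma typeVec_eq_game (S T : Finset Pl) :
    typeVec game S = typeVec game T ↔
      mis S 0 = mis T 0 ∧ mis S 1 = mis T 1 ∧ mis S 2 = mis T 2 := by
  have key : ∀ h, cnt S h = cnt T h ↔ mis S h = mis T h := by
    intro h
    have := cnt_add_mis S h
    have := cnt_add_mis T h
    omega
  rw [← key, ← key, ← key]
  constructor
  · intro h
    have h1 : ∀ k, cnt S k = cnt T k := by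
      intro k
      obtain ⟨p, rfl⟩ := exists_type k
      have := congrFun h p
      rwa [typeVec_game, typeVec_game] at this
    exact ⟨h1 0, h1 1, h1 2⟩
  · rintro ⟨h0, h1, h2⟩
    funext p
    rw [typeVec_game, typeVec_game]
    have h4 : p.1 = 0 ∨ p.1 = 1 ∨ p.1 = 2 := by omega
    rcases h4 with q | q | q <;> rw [q] <;> assumption

/-- the missing vector of `S` is `(x0, x1, x2)` -/
def HasMis (S : Finset Pl) (x0 x1 x2 : ℕ) : Prop :=
  mis S 0 = x0 ∧ mis S 1 = x1 ∧ mis S 2 = x2

lemma exists_hasMis (x0 x1 x2 : ℕ) (h0 : x0 ≤ 3) (h1 : x1 ≤ 3) (h2 : x2 ≤ 5) :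
    ∃ S : Finset Pl, HasMis S x0 x1 x2 := by
  obtain ⟨S, hS⟩ := exists_coal' ![x0, x1, x2] (by
    intro h
    have h4 : h = 0 ∨ h = 1 ∨ h = 2 := by omega
    rcases h4 with rfl | rfl | rfl
    · exact h0
    · exact h1
    · exact h2)
  exact ⟨S, hS 0, hS 1, hS 2⟩

lemma game_shiftMin (S : Finset Pl) :
    ShiftMin game S ↔ HasMis S 1 1 2 ∨ HasMis S 2 1 0 := by
  have m0 := mis_le S 0
  have m1 := mis_le S 1
  have m2 := mis_le S 2
  rw [sz0] at m0
  rw [sz1] at m1
  rw [sz2] at m2
  constructor
  · rintro ⟨h1, h2⟩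
    have key : ∀ x0 x1 x2 : ℕ, x0 ≤ 3 → x1 ≤ 3 → x2 ≤ 5 →
        WinV x0 x1 x2 → mis S 0 ≤ x0 → mis S 0 + mis S 1 ≤ x0 + x1 →
        mis S 0 + mis S 1 + mis S 2 ≤ x0 + x1 + x2 → HasMis S x0 x1 x2 := by
      intro x0 x1 x2 g0 g1 g2 hw k0 k1 k2
      obtain ⟨T, t0, t1, t2⟩ := exists_hasMis x0 x1 x2 g0 g1 g2
      by_contra hne
      refine h2 T ?_ ?_ ?_
      · rw [typeLe_game, t0, t1, t2]
        exact ⟨k0, k1, k2⟩
      · intro h3
        rw [typeVec_eq_game] at h3
        obtain ⟨a, b, d⟩ := h3
        exact hne ⟨a.symm.trans t0, b.symm.trans t1, d.symm.trans t2⟩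
      · rw [game_win, t0, t1, t2]; exact hw
    rw [game_win] at h1
    rcases h1 with h1 | h1
    · left
      apply key <;> first | omega | (unfold WinV; omega)
    · right
      apply key <;> first | omega | (unfold WinV; omega)
  · intro h
    refine ⟨?_, ?_⟩
    · rw [game_win]
      unfold WinV
      rcases h with ⟨a, b, d⟩ | ⟨a, b, d⟩ <;> omega
    · intro T hle hne hw
      apply hne
      rw [typeLe_game] at hle
      rw [game_win] at hw
      rw [typeVec_eq_game]
      unfold WinV at hw
      rcases h with ⟨a, b, d⟩ | ⟨a, b, d⟩ <;> omega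

lemma game_numShiftMin : numShiftMin game = 2 := by
  obtain ⟨S1, h1⟩ := exists_hasMis 1 1 2 (by omega) (by omega) (by omega)
  obtain ⟨S2, h2⟩ := exists_hasMis 2 1 0 (by omega) (by omega) (by omega)
  unfold numShiftMin
  have : {v | ∃ S, ShiftMin game S ∧ typeVec game S = v} =
      {typeVec game S1, typeVec game S2} := by
    ext v
    simp only [Set.mem_ofPred_eq, Set.mem_insert_iff, Set.mem_singleton_iff]
    constructor
    · rintro ⟨S, hS, rfl⟩
      rw [game_shiftMin] at hS
      rw [typeVec_eq_game, typeVec_eq_game]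
      unfold HasMis at h1 h2 hS
      omega
    · rintro (rfl | rfl)
      · exact ⟨S1, (game_shiftMin S1).mpr (Or.inl h1), rfl⟩
      · exact ⟨S2, (game_shiftMin S2).mpr (Or.inr h2), rfl⟩
  rw [this]
  have e12 : typeVec game S1 ≠ typeVec game S2 := by
    rw [Ne, typeVec_eq_game]; unfold HasMis at h1 h2; omega
  exact Set.ncard_pair e12

lemma game_noPasser : NoPasser game := by
  intro p
  have h0 := mis_insert (notMem_empty p) 0
  have h1 := mis_insert (notMem_empty p) 1
  have h2 := mis_insert (notMem_empty p) 2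
  rw [mis_empty] at h0 h1 h2
  rw [sz0] at h0
  rw [sz1] at h1
  rw [sz2] at h2
  have t := tyi_sum p
  rw [game_win]
  rw [insert_empty_eq] at h0 h1 h2
  unfold WinV
  omega

lemma game_noVetoer : NoVetoer game := by
  intro p
  have h0 := mis_insert (notMem_erase p univ) 0
  have h1 := mis_insert (notMem_erase p univ) 1
  have h2 := mis_insert (notMem_erase p univ) 2
  rw [insert_erase (mem_univ p), mis_univ] at h0 h1 h2
  have t := tyi_sum p
  rw [game_win]
  unfold WinV
  omega

/-! ### Trade robustness -/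

lemma mis_eq_sum (S : Finset Pl) (h : Fin 3) :
    mis S h = ∑ a : Fin (sz h), if (⟨h, a⟩ : Pl) ∉ S then 1 else 0 := by
  unfold mis
  rw [card_filter]

lemma trade_mis {k : ℕ} {X Y : Fin k → Finset Pl} (hT : Trade X Y) (h : Fin 3) :
    ∑ i, mis (X i) h = ∑ i, mis (Y i) h := by
  have key : ∀ Z : Fin k → Finset Pl, ∑ i, mis (Z i) h +
      ∑ a : Fin (sz h), (univ.filter fun i => (⟨h, a⟩ : Pl) ∈ Z i).card = sz h * k := by
    intro Z
    simp only [mis_eq_sum]
    rw [sum_comm, ← sum_add_distrib]
    have : ∀ a : Fin (sz h), (∑ i : Fin k, if (⟨h, a⟩ : Pl) ∉ Z i then 1 else 0) +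
        (univ.filter fun i => (⟨h, a⟩ : Pl) ∈ Z i).card = k := by
      intro a
      rw [← card_filter, add_comm, card_filter_add_card_filter_not, card_univ, Fintype.card_fin]
    rw [sum_congr rfl (fun a _ => this a), sum_const, card_univ, Fintype.card_fin, smul_eq_mul]
  have h1 := key X
  have h2 := key Y
  have h3 : ∑ a : Fin (sz h), (univ.filter fun i => (⟨h, a⟩ : Pl) ∈ X i).card =
      ∑ a : Fin (sz h), (univ.filter fun i => (⟨h, a⟩ : Pl) ∈ Y i).card :=
    sum_congr rfl fun a _ => hT _
  omega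

lemma two_trade (a0 a1 a2 b0 b1 b2 c0 c1 c2 d0 d1 d2 : ℕ)
    (h0 : a0 + b0 = c0 + d0) (h1 : a1 + b1 = c1 + d1) (h2 : a2 + b2 = c2 + d2)
    (mc0 : c0 ≤ 3) (mc1 : c1 ≤ 3) (mc2 : c2 ≤ 5) (md0 : d0 ≤ 3) (md1 : d1 ≤ 3) (md2 : d2 ≤ 5)
    (ha : WinV a0 a1 a2) (hb : WinV b0 b1 b2) (hc : ¬ WinV c0 c1 c2) (hd : ¬ WinV d0 d1 d2) :
    False := by
  unfold WinV at *
  rcases ha with ⟨x1, x2, x3⟩ | ⟨x1, x2, x3⟩ <;> rcases hb with ⟨y1, y2, y3⟩ | ⟨y1, y2, y3⟩ <;>
    omega

lemma game_tradeRobust : TradeRobust game 2 := by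
  intro k hk1 hk2 X Y hT hX
  by_contra hY
  push Not at hY
  have t0 := trade_mis hT 0
  have t1 := trade_mis hT 1
  have t2 := trade_mis hT 2
  have hk : k = 1 ∨ k = 2 := by omega
  rcases hk with rfl | rfl
  · rw [Fin.sum_univ_one, Fin.sum_univ_one] at t0 t1 t2
    have h1 := hX 0
    have h2 := hY 0
    rw [game_win] at h1 h2
    rw [t0, t1, t2] at h1
    exact h2 h1
  · rw [Fin.sum_univ_two, Fin.sum_univ_two] at t0 t1 t2
    exact two_trade _ _ _ _ _ _ _ _ _ _ _ _ t0 t1 t2 (mis_le _ 0) (mis_le _ 1) (mis_le _ 2)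
      (mis_le _ 0) (mis_le _ 1) (mis_le _ 2) (hX 0) (hX 1) (hY 0) (hY 1)

/-- the missing players of the winning coalitions of the trading transform of length `3` -/
def misX (j : Fin 3) (h : Fin 3) (a : ℕ) : Bool :=
  (h == 0 && a == j.val) || (h == 1 && a == j.val) ||
    (h == 2 && ((j == 0 && (a == 0 || a == 1)) || (j == 1 && (a == 0 || a == 2)) ||
      (j == 2 && (a == 3 || a == 4))))

/-- the missing players of the losing coalitions of the trading transform of length `3` -/
def misY (j : Fin 3) (h : Fin 3) (a : ℕ) : Bool :=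
  (j == 0 && h == 2) || (j == 1 && (h == 1 || (h == 2 && a == 0))) || (j == 2 && h == 0)

/-- the winning coalitions of the trading transform -/
def XX (i : Fin 3) : Finset Pl := univ.filter fun p => misX i p.1 p.2.val = false

/-- the losing coalitions of the trading transform -/
def YY (i : Fin 3) : Finset Pl := univ.filter fun p => misY i p.1 p.2.val = false

lemma mis_XX (i h : Fin 3) :
    mis (XX i) h = (univ.filter fun a : Fin (sz h) => misX i h a.val = true).card := by
  unfold mis XX
  congr 1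
  ext a
  simp

lemma mis_YY (i h : Fin 3) :
    mis (YY i) h = (univ.filter fun a : Fin (sz h) => misY i h a.val = true).card := by
  unfold mis YY
  congr 1
  ext a
  simp

lemma trade_XY : Trade XX YY := by
  rintro ⟨h, a⟩
  unfold XX YY
  simp only [mem_filter, mem_univ, true_and]
  revert a
  revert h
  decide

lemma cX : ∀ i : Fin 3,
    (univ.filter fun a : Fin (sz 0) => misX i 0 a.val = true).card = 1 ∧
    (univ.filter fun a : Fin (sz 1) => misX i 1 a.val = true).card = 1 ∧
    (univ.filter fun a : Fin (sz 2) => misX i 2 a.val = true).card = 2 := by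
  decide

lemma cY0 : (univ.filter fun a : Fin (sz 2) => misY 0 2 a.val = true).card = 5 := by
  decide

lemma cY1 : (univ.filter fun a : Fin (sz 0) => misY 1 0 a.val = true).card = 0 ∧
    (univ.filter fun a : Fin (sz 1) => misY 1 1 a.val = true).card = 3 ∧
    (univ.filter fun a : Fin (sz 2) => misY 1 2 a.val = true).card = 1 := by
  decide

lemma cY2 : (univ.filter fun a : Fin (sz 0) => misY 2 0 a.val = true).card = 3 := by
  decide

lemma win_XX (i : Fin 3) : game.Win (XX i) := by
  obtain ⟨h0, h1, h2⟩ := cX i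
  rw [game_win, mis_XX, mis_XX, mis_XX, h0, h1, h2]
  unfold WinV
  omega

lemma lose_YY (i : Fin 3) : ¬ game.Win (YY i) := by
  have h4 : i = 0 ∨ i = 1 ∨ i = 2 := by omega
  rw [game_win, mis_YY, mis_YY, mis_YY]
  rcases h4 with rfl | rfl | rfl
  · rw [cY0]
    unfold WinV
    omega
  · obtain ⟨h0, h1, h2⟩ := cY1
    rw [h0, h1, h2]
    unfold WinV
    omega
  · rw [cY2]
    unfold WinV
    omega

lemma game_not_tradeRobust : ¬ TradeRobust game 3 := by
  intro h
  obtain ⟨i, hi⟩ := h 3 (by omega) (le_refl _) XX YY trade_XY win_XX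
  exact lose_YY i hi

end Pool.Agent.R90.Games.B2

namespace Pool.Agent.R90.Games

/-- There is a complete simple game with two shift-minimal winning types which is 2-trade robust
but not 3-trade robust. -/
theorem base2 : ∃ (N : Type) (_ : Fintype N) (_ : DecidableEq N) (G : SimpleGame N), Complete G ∧
    numShiftMin G = 2 ∧ NoPasser G ∧ NoVetoer G ∧ TradeRobust G 2 ∧ ¬ TradeRobust G 3 :=
  ⟨B2.Pl, inferInstance, inferInstance, B2.game, B2.game_complete, B2.game_numShiftMin,
    B2.game_noPasser, B2.game_noVetoer, B2.game_tradeRobust, B2.game_not_tradeRobust⟩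

/-- For every `s` there is a complete game with `3 + s` shift-minimal winning types which is
2-trade robust but not 3-trade robust. -/
theorem exists_game_two (s : ℕ) :
    ∃ (N : Type) (_ : Fintype N) (_ : DecidableEq N) (G : SimpleGame N), Complete G ∧
      numShiftMin G = 3 + s ∧ TradeRobust G 2 ∧ ¬ TradeRobust G 3 := by
  have key : ∀ s : ℕ, ∃ (N : Type) (_ : Fintype N) (_ : DecidableEq N) (G : SimpleGame N),
      Complete G ∧ NoVetoer G ∧ numShiftMin G = 3 + s ∧ TradeRobust G 2 ∧ ¬ TradeRobust G 3 := by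
    intro s
    induction s with
    | zero =>
      obtain ⟨N, i1, i2, G, h1, h2, h3, h4, h5, h6⟩ := base2
      refine ⟨Option N, inferInstance, inferInstance, passer G, (ext_passer G h3).complete h1,
        passer_noVetoer G, ?_, ?_, ?_⟩
      · rw [passer_numShiftMin G h3 h1, h2]
      · rwa [passer_tradeRobust]
      · rwa [passer_tradeRobust]
    | succ s ih =>
      obtain ⟨N, i1, i2, G, h1, h2, h3, h4, h5⟩ := ih
      have c1 := (ext_vetoer G h2).complete h1
      have p1 := vetoer_noPasser G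
      refine ⟨Option (Option N), inferInstance, inferInstance, passer (vetoer G), ?_, ?_, ?_, ?_,
        ?_⟩
      · exact (ext_passer _ p1).complete c1
      · exact passer_noVetoer _
      · rw [passer_numShiftMin _ p1 c1, vetoer_numShiftMin G h2, h3]
        ring
      · rwa [passer_tradeRobust, vetoer_tradeRobust]
      · rwa [passer_tradeRobust, vetoer_tradeRobust]
  obtain ⟨N, i1, i2, G, h1, _, h3, h4, h5⟩ := key s
  exact ⟨N, i1, i2, G, h1, h3, h4, h5⟩

end Pool.Agent.R90.Games
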