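import Mathlib

set_option autoImplicit false
set_option linter.unusedSectionVars false
set_option linter.unusedVariables false

/-!
# Simple games, desirability, types, trades

Basic definitions for complete simple games, following the literature on trade robustness, and two
one-player extensions (adding a passer, adding a vetoer).
-/

namespace Pool.Agent.R90.Games

open Finset

/-- A simple game on the finite player set `N`: an upward closed family of winning coalitions for
which the empty coalition is losing and the grand coalition is winning. -/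
structure SimpleGame (N : Type) [Fintype N] [DecidableEq N] where
  /-- the winning coalitions -/
  Win : Finset N → Prop
  mono : ∀ S T : Finset N, S ⊆ T → Win S → Win T
  empty_losing : ¬ Win ∅
  all_winning : Win univ

variable {N : Type} [Fintype N] [DecidableEq N]

/-- `i` is at least as desirable as `j`. -/
def Desir (G : SimpleGame N) (i j : N) : Prop :=
  ∀ S : Finset N, i ∉ S → j ∉ S → G.Win (insert j S) → G.Win (insert i S)

/-- The game is complete: desirability is total. -/
def Complete (G : SimpleGame N) : Prop := ∀ i j : N, Desir G i j ∨ Desir G j i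

/-- The type of the player `i`: the set of players equivalent to `i`. -/
def typeOf (G : SimpleGame N) (i : N) : Set N := {j | Desir G i j ∧ Desir G j i}

/-- The number of types of players. -/
noncomputable def numTypes (G : SimpleGame N) : ℕ := Set.ncard (Set.range (typeOf G))

/-- The type vector of the coalition `S`; its entry at (the type of) the player `i` is the number of
members of `S` that have the same type as `i`. -/
noncomputable def typeVec (G : SimpleGame N) (S : Finset N) (i : N) : ℕ :=
  Set.ncard {j | j ∈ S ∧ j ∈ typeOf G i}

/-- The number of members of `S` that are at least as desirable as `i`; this is the partial sum of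
the type vector of `S` up to the type of `i`. -/
noncomputable def topCount (G : SimpleGame N) (S : Finset N) (i : N) : ℕ :=
  Set.ncard {j | j ∈ S ∧ Desir G j i}

/-- The order on type vectors of coalitions: all partial sums of the type vector of `S` are at most
those of the type vector of `T`. -/
def TypeLe (G : SimpleGame N) (S T : Finset N) : Prop := ∀ i, topCount G S i ≤ topCount G T i

/-- `S` is a shift-minimal winning coalition: it is winning, and every coalition whose type vector
is strictly below that of `S` is losing. -/
def ShiftMin (G : SimpleGame N) (S : Finset N) : Prop :=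
  G.Win S ∧ ∀ T, TypeLe G T S → typeVec G T ≠ typeVec G S → ¬ G.Win T

/-- The number `r` of shift-minimal winning types. -/
noncomputable def numShiftMin (G : SimpleGame N) : ℕ :=
  Set.ncard {v | ∃ S, ShiftMin G S ∧ typeVec G S = v}

/-- `⟨X_1, …, X_k; Y_1, …, Y_k⟩` is a trading transform: every player lies in exactly as many of
the `X_i` as of the `Y_i`. -/
def Trade {k : ℕ} (X Y : Fin k → Finset N) : Prop :=
  ∀ p : N, (univ.filter fun i => p ∈ X i).card = (univ.filter fun i => p ∈ Y i).card

/-- `m`-trade robustness: no trading transform of length at most `m` turns winning coalitions into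
losing coalitions. -/
def TradeRobust (G : SimpleGame N) (m : ℕ) : Prop :=
  ∀ k, 1 ≤ k → k ≤ m → ∀ X Y : Fin k → Finset N, Trade X Y → (∀ i, G.Win (X i)) → ∃ i, G.Win (Y i)

/-- `m`-invariant trade robustness: no trading transform of length at most `m` turns shift-minimal
winning coalitions into losing coalitions. -/
def InvTradeRobust (G : SimpleGame N) (m : ℕ) : Prop :=
  ∀ k, 1 ≤ k → k ≤ m → ∀ X Y : Fin k → Finset N, Trade X Y → (∀ i, ShiftMin G (X i)) →
    ∃ i, G.Win (Y i)

/-- no singleton wins -/
def NoPasser (G : SimpleGame N) : Prop := ∀ x, ¬ G.Win {x}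

/-- no player is a vetoer -/
def NoVetoer (G : SimpleGame N) : Prop := ∀ x, G.Win (univ.erase x)

/-! ### Adding a passer -/

/-- add a passer (a player winning alone) -/
def passer (G : SimpleGame N) : SimpleGame (Option N) where
  Win S := none ∈ S ∨ G.Win (eraseNone S)
  mono S T h := by
    rintro (h1 | h1)
    · exact Or.inl (h h1)
    · exact Or.inr (G.mono _ _ (eraseNone.monotone h) h1)
  empty_losing := by
    rintro (h | h)
    · exact absurd h (notMem_empty _)
    · rw [eraseNone_empty] at h; exact G.empty_losing h
  all_winning := Or.inl (mem_univ _)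

/-- add a vetoer (a player without whom nobody wins) -/
def vetoer (G : SimpleGame N) : SimpleGame (Option N) where
  Win S := none ∈ S ∧ G.Win (eraseNone S)
  mono S T h := by
    rintro ⟨h1, h2⟩
    exact ⟨h h1, G.mono _ _ (eraseNone.monotone h) h2⟩
  empty_losing := by
    rintro ⟨h, _⟩
    exact absurd h (notMem_empty _)
  all_winning := by
    refine ⟨mem_univ _, ?_⟩
    have : eraseNone (univ : Finset (Option N)) = univ := by ext x; simp
    rw [this]; exact G.all_winning

lemma passer_win (G : SimpleGame N) (S : Finset (Option N)) :
    (passer G).Win S ↔ (none ∈ S ∨ G.Win (eraseNone S)) := Iff.rfl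

lemma vetoer_win (G : SimpleGame N) (S : Finset (Option N)) :
    (vetoer G).Win S ↔ (none ∈ S ∧ G.Win (eraseNone S)) := Iff.rfl

/-- old coalition seen in the extended player set -/
def up (S : Finset N) : Finset (Option N) := S.map Function.Embedding.some

lemma none_notMem_up (S : Finset N) : none ∉ up S := by simp [up]

lemma some_mem_up (S : Finset N) (x : N) : some x ∈ up S ↔ x ∈ S := by simp [up]

lemma eraseNone_up (S : Finset N) : eraseNone (up S) = S := by
  ext x; simp [some_mem_up]

lemma eraseNone_insert_some (S : Finset (Option N)) (x : N) :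
    eraseNone (insert (some x) S) = insert x (eraseNone S) := by
  ext y; simp

lemma eraseNone_insert_none' (S : Finset (Option N)) :
    eraseNone (insert none S) = eraseNone S := by
  ext y; simp

lemma passer_desir_none (G : SimpleGame N) (y : Option N) : Desir (passer G) none y := by
  intro S _ _ _
  exact Or.inl (mem_insert_self _ _)

lemma passer_not_desir_none (G : SimpleGame N) (h : NoPasser G) (x : N) :
    ¬ Desir (passer G) (some x) none := by
  intro hd
  have := hd ∅ (notMem_empty _) (notMem_empty _) (Or.inl (mem_insert_self _ _))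
  rcases this with h1 | h1
  · simp at h1
  · rw [eraseNone_insert_some, eraseNone_empty] at h1
    exact h x (by simpa using h1)

lemma passer_desir_some (G : SimpleGame N) (x y : N) :
    Desir (passer G) (some x) (some y) ↔ Desir G x y := by
  constructor
  · intro hd S hx hy hw
    have := hd (up S) (by rwa [some_mem_up]) (by rwa [some_mem_up])
      (Or.inr (by rwa [eraseNone_insert_some, eraseNone_up]))
    rcases this with h1 | h1
    · rw [mem_insert] at h1
      rcases h1 with h1 | h1
      · exact absurd h1 (by simp)
      · exact absurd h1 (none_notMem_up S)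
    · rwa [eraseNone_insert_some, eraseNone_up] at h1
  · intro hd S hx hy hw
    rcases hw with h1 | h1
    · rw [mem_insert] at h1
      rcases h1 with h1 | h1
      · exact absurd h1 (by simp)
      · exact Or.inl (mem_insert_of_mem h1)
    · refine Or.inr ?_
      rw [eraseNone_insert_some] at h1 ⊢
      exact hd _ (by simpa using hx) (by simpa using hy) h1

lemma vetoer_desir_none (G : SimpleGame N) (y : Option N) : Desir (vetoer G) none y := by
  intro S hn _ hw
  rcases hw with ⟨h1, h2⟩
  rw [mem_insert] at h1
  rcases h1 with h1 | h1
  · subst h1; exact ⟨mem_insert_self _ _, h2⟩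
  · exact absurd h1 hn

lemma vetoer_not_desir_none (G : SimpleGame N) (h : NoVetoer G) (x : N) :
    ¬ Desir (vetoer G) (some x) none := by
  intro hd
  have := hd (up (univ.erase x)) (by rw [some_mem_up]; simp) (none_notMem_up _)
    ⟨mem_insert_self _ _, by rw [eraseNone_insert_none', eraseNone_up]; exact h x⟩
  rcases this with ⟨h1, _⟩
  rw [mem_insert] at h1
  rcases h1 with h1 | h1
  · exact absurd h1 (by simp)
  · exact absurd h1 (none_notMem_up _)

lemma vetoer_desir_some (G : SimpleGame N) (x y : N) :
    Desir (vetoer G) (some x) (some y) ↔ Desir G x y := by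
  constructor
  · intro hd S hx hy hw
    have := hd (insert none (up S)) (by simp [some_mem_up, hx]) (by simp [some_mem_up, hy])
      ⟨by simp, by rwa [eraseNone_insert_some, eraseNone_insert_none', eraseNone_up]⟩
    rcases this with ⟨_, h1⟩
    rwa [eraseNone_insert_some, eraseNone_insert_none', eraseNone_up] at h1
  · intro hd S hx hy hw
    rcases hw with ⟨h0, h1⟩
    rw [mem_insert] at h0
    rcases h0 with h0 | h0
    · exact absurd h0 (by simp)
    · refine ⟨mem_insert_of_mem h0, ?_⟩
      rw [eraseNone_insert_some] at h1 ⊢
      exact hd _ (by simpa using hx) (by simpa using hy) h1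


/-! ### Both extensions behave in the same way -/

/-- `G'` arises from `G` by adding one player who is strictly more desirable than all others. -/
structure Ext (G : SimpleGame N) (G' : SimpleGame (Option N)) : Prop where
  d0 : ∀ y, Desir G' none y
  d1 : ∀ x, ¬ Desir G' (some x) none
  d2 : ∀ x y, Desir G' (some x) (some y) ↔ Desir G x y

lemma ext_passer (G : SimpleGame N) (h : NoPasser G) : Ext G (passer G) :=
  ⟨passer_desir_none G, passer_not_desir_none G h, passer_desir_some G⟩

lemma ext_vetoer (G : SimpleGame N) (h : NoVetoer G) : Ext G (vetoer G) :=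
  ⟨vetoer_desir_none G, vetoer_not_desir_none G h, vetoer_desir_some G⟩

variable {G : SimpleGame N} {G' : SimpleGame (Option N)}

lemma Ext.complete (E : Ext G G') (h : Complete G) : Complete G' := by
  intro i j
  rcases i with _ | i
  · exact Or.inl (E.d0 j)
  rcases j with _ | j
  · exact Or.inr (E.d0 _)
  rw [E.d2, E.d2]
  exact h i j

/-- indicator of the new player -/
def ind (T : Finset (Option N)) : ℕ := if none ∈ T then 1 else 0

lemma ncard_split (T : Finset (Option N)) (P : Option N → Prop) (Q : N → Prop)
    (h0 : P none) (h : ∀ x, P (some x) ↔ Q x) :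
    Set.ncard {j | j ∈ T ∧ P j} = ind T + Set.ncard {j | j ∈ eraseNone T ∧ Q j} := by
  have h1 : {j | j ∈ T ∧ P j} = {j | j = none ∧ none ∈ T} ∪ some '' {j | j ∈ eraseNone T ∧ Q j} := by
    ext j
    rcases j with _ | j
    · simp [h0]
    · simp [h]
  rw [h1, Set.ncard_union_eq _ (Set.toFinite _) (Set.toFinite _),
    Set.ncard_image_of_injective _ (Option.some_injective N)]
  · congr 1
    unfold ind
    split_ifs with h2
    · have : {j : Option N | j = none ∧ none ∈ T} = {none} := by ext j; simp [h2]
      rw [this, Set.ncard_singleton]
    · have : {j : Option N | j = none ∧ none ∈ T} = ∅ := by ext j; simp [h2]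
      rw [this, Set.ncard_empty]
  · rw [Set.disjoint_left]
    rintro j ⟨h2, _⟩ ⟨x, _, h3⟩
    rw [h2] at h3
    exact absurd h3 (by simp)

lemma ncard_split' (T : Finset (Option N)) (P : Option N → Prop) (Q : N → Prop)
    (h0 : ¬ P none) (h : ∀ x, P (some x) ↔ Q x) :
    Set.ncard {j | j ∈ T ∧ P j} = Set.ncard {j | j ∈ eraseNone T ∧ Q j} := by
  have h1 : {j | j ∈ T ∧ P j} = some '' {j | j ∈ eraseNone T ∧ Q j} := by
    ext j
    rcases j with _ | j
    · simp [h0]
    · simp [h]
  rw [h1, Set.ncard_image_of_injective _ (Option.some_injective N)]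

lemma ncard_none (T : Finset (Option N)) (P : Option N → Prop) (h0 : P none)
    (h : ∀ x, ¬ P (some x)) : Set.ncard {j | j ∈ T ∧ P j} = ind T := by
  rw [ncard_split T P (fun _ => False) h0 (by simpa using h)]
  simp

lemma Ext.topCount_none (E : Ext G G') (T : Finset (Option N)) : topCount G' T none = ind T :=
  ncard_none T _ (E.d0 none) E.d1

lemma Ext.topCount_some (E : Ext G G') (T : Finset (Option N)) (i : N) :
    topCount G' T (some i) = ind T + topCount G (eraseNone T) i :=
  ncard_split T _ _ (E.d0 _) fun x => E.d2 x i

lemma Ext.typeOf_none (E : Ext G G') : typeOf G' none = {none} := by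
  ext j
  rcases j with _ | j
  · simp [typeOf, E.d0]
  · simp [typeOf, E.d1]

lemma Ext.typeOf_some (E : Ext G G') (i : N) : typeOf G' (some i) = some '' typeOf G i := by
  ext j
  rcases j with _ | j
  · simp [typeOf, E.d1]
  · simp [typeOf, E.d2]

lemma Ext.typeVec_none (E : Ext G G') (T : Finset (Option N)) : typeVec G' T none = ind T := by
  unfold typeVec
  apply ncard_none
  · rw [E.typeOf_none]; simp
  · intro x; rw [E.typeOf_none]; simp

lemma Ext.typeVec_some (E : Ext G G') (T : Finset (Option N)) (i : N) :
    typeVec G' T (some i) = typeVec G (eraseNone T) i := by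
  unfold typeVec
  apply ncard_split'
  · rw [E.typeOf_some]; simp
  · intro x; rw [E.typeOf_some]; simp

lemma Ext.typeLe (E : Ext G G') (T T' : Finset (Option N)) :
    TypeLe G' T T' ↔ ind T ≤ ind T' ∧
      ∀ i, ind T + topCount G (eraseNone T) i ≤ ind T' + topCount G (eraseNone T') i := by
  constructor
  · intro h
    refine ⟨?_, fun i => ?_⟩
    · have := h none
      rwa [E.topCount_none, E.topCount_none] at this
    · have := h (some i)
      rwa [E.topCount_some, E.topCount_some] at this
  · rintro ⟨h1, h2⟩ i
    rcases i with _ | i
    · rwa [E.topCount_none, E.topCount_none]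
    · rw [E.topCount_some, E.topCount_some]; exact h2 i

lemma Ext.typeVec_eq (E : Ext G G') (T T' : Finset (Option N)) :
    typeVec G' T = typeVec G' T' ↔ ind T = ind T' ∧
      typeVec G (eraseNone T) = typeVec G (eraseNone T') := by
  constructor
  · intro h
    refine ⟨?_, ?_⟩
    · have := congrFun h none
      rwa [E.typeVec_none, E.typeVec_none] at this
    · funext i
      have := congrFun h (some i)
      rwa [E.typeVec_some, E.typeVec_some] at this
  · rintro ⟨h1, h2⟩
    funext i
    rcases i with _ | i
    · rwa [E.typeVec_none, E.typeVec_none]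
    · rw [E.typeVec_some, E.typeVec_some, h2]

lemma Ext.numTypes (E : Ext G G') : numTypes G' = numTypes G + 1 := by
  unfold Games.numTypes
  have h1 : Set.range (typeOf G') = insert {none} ((fun C => some '' C) '' Set.range (typeOf G)) := by
    ext C
    constructor
    · rintro ⟨i, rfl⟩
      rcases i with _ | i
      · rw [E.typeOf_none]; exact Set.mem_insert _ _
      · rw [E.typeOf_some]; exact Set.mem_insert_of_mem _ ⟨_, ⟨i, rfl⟩, rfl⟩
    · rintro (rfl | ⟨_, ⟨i, rfl⟩, rfl⟩)
      · exact ⟨none, E.typeOf_none⟩
      · exact ⟨some i, E.typeOf_some i⟩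
  rw [h1, Set.ncard_insert_of_notMem _ (Set.toFinite _),
    Set.ncard_image_of_injective _ (Set.image_injective.mpr (Option.some_injective N))]
  rintro ⟨C, _, hC⟩
  have : (none : Option N) ∈ some '' C := by
    have h2 : some '' C = ({none} : Set (Option N)) := hC
    rw [h2]; rfl
  simp at this

/-! ### Shift-minimal winning coalitions of the extensions -/

lemma ind_le (T : Finset (Option N)) : ind T ≤ 1 := by unfold ind; split_ifs <;> omega

lemma ind_pos {T : Finset (Option N)} (h : none ∈ T) : ind T = 1 := by simp [ind, h]

lemma ind_zero {T : Finset (Option N)} (h : none ∉ T) : ind T = 0 := by simp [ind, h]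

lemma mem_of_ind {T : Finset (Option N)} (h : ind T = 1) : none ∈ T := by
  by_contra h1; rw [ind_zero h1] at h; omega

lemma topCount_le_empty (T : Finset N) (i : N) : topCount G ∅ i ≤ topCount G T i := by
  have : topCount G ∅ i = 0 := by simp [topCount]
  rw [this]; exact Nat.zero_le _

lemma vetoer_shiftMin (G : SimpleGame N) (h : NoVetoer G) (T : Finset (Option N)) :
    ShiftMin (vetoer G) T ↔ none ∈ T ∧ ShiftMin G (eraseNone T) := by
  have E := ext_vetoer G h
  constructor
  · rintro ⟨⟨h1, h2⟩, h3⟩
    refine ⟨h1, h2, ?_⟩
    intro S hS hne hw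
    have hn : none ∈ insert none (up S) := mem_insert_self _ _
    have he : eraseNone (insert none (up S)) = S := by rw [eraseNone_insert_none', eraseNone_up]
    refine h3 (insert none (up S)) ?_ ?_ ⟨hn, by rwa [he]⟩
    · rw [E.typeLe, ind_pos h1, ind_pos hn, he]
      exact ⟨le_refl _, fun i => Nat.add_le_add_left (hS i) 1⟩
    · intro hh
      rw [E.typeVec_eq, he] at hh
      exact hne hh.2
  · rintro ⟨h1, h2, h3⟩
    refine ⟨⟨h1, h2⟩, ?_⟩
    intro S hS hne hw
    rcases hw with ⟨h4, h5⟩
    rw [E.typeLe, ind_pos h1, ind_pos h4] at hS
    refine h3 (eraseNone S) (fun i => by have := hS.2 i; omega) ?_ h5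
    intro hh
    exact hne ((E.typeVec_eq _ _).mpr ⟨by rw [ind_pos h1, ind_pos h4], hh⟩)

lemma passer_shiftMin (G : SimpleGame N) (h : NoPasser G) (hc : Complete G)
    (T : Finset (Option N)) :
    ShiftMin (passer G) T ↔ T = {none} ∨ (none ∉ T ∧ ShiftMin G (eraseNone T)) := by
  have E := ext_passer G h
  have hs : none ∈ ({none} : Finset (Option N)) := mem_singleton_self _
  have hse : eraseNone ({none} : Finset (Option N)) = ∅ := by ext x; simp
  constructor
  · rintro ⟨h1, h3⟩
    by_cases hn : none ∈ T
    · left
      have h4 : typeVec (passer G) {none} = typeVec (passer G) T := by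
        by_contra hne
        refine h3 {none} ?_ hne (Or.inl hs)
        rw [E.typeLe, ind_pos hn, ind_pos hs, hse]
        exact ⟨le_refl _, fun i => Nat.add_le_add_left (topCount_le_empty _ i) 1⟩
      ext j
      rcases j with _ | j
      · simp [hn]
      · simp only [mem_singleton, reduceCtorEq, iff_false]
        intro hj
        have h5 := congrFun h4 (some j)
        rw [E.typeVec_some, E.typeVec_some, hse] at h5
        have h6 : typeVec G ∅ j = 0 := by simp [typeVec]
        rw [h6] at h5
        have h7 : Set.ncard {k | k ∈ eraseNone T ∧ k ∈ typeOf G j} = 0 := h5.symm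
        rw [Set.ncard_eq_zero (Set.toFinite _)] at h7
        have h8 : j ∈ ({k | k ∈ eraseNone T ∧ k ∈ typeOf G j} : Set N) :=
          ⟨by simpa using hj, fun _ _ _ h => h, fun _ _ _ h => h⟩
        rw [h7] at h8
        exact h8
    · right
      refine ⟨hn, ?_, ?_⟩
      · rcases h1 with h1 | h1
        · exact absurd h1 hn
        · exact h1
      · intro S hS hne hw
        refine h3 (up S) ?_ ?_ (Or.inr (by rwa [eraseNone_up]))
        · rw [E.typeLe, ind_zero hn, ind_zero (none_notMem_up S), eraseNone_up]
          exact ⟨le_refl _, fun i => Nat.add_le_add_left (hS i) 0⟩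
        · intro hh
          rw [E.typeVec_eq, eraseNone_up] at hh
          exact hne hh.2
  · rintro (rfl | ⟨hn, h1, h3⟩)
    · refine ⟨Or.inl hs, ?_⟩
      intro S hS hne hw
      rcases hw with h4 | h4
      · apply hne
        rw [E.typeLe, ind_pos h4, ind_pos hs, hse] at hS
        rw [E.typeVec_eq, ind_pos h4, ind_pos hs, hse]
        refine ⟨rfl, ?_⟩
        have h5 : eraseNone S = ∅ := by
          rw [Finset.eq_empty_iff_forall_notMem]
          intro j hj
          have h6 := hS.2 j
          have h7 : topCount G ∅ j = 0 := by simp [topCount]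
          have h8 : topCount G (eraseNone S) j = 0 := by omega
          unfold topCount at h8
          rw [Set.ncard_eq_zero (Set.toFinite _)] at h8
          have h9 : j ∈ ({k | k ∈ eraseNone S ∧ Desir G k j} : Set N) := ⟨hj, fun _ _ _ h => h⟩
          rw [h8] at h9
          exact h9
        rw [h5]
      · by_cases hS0 : none ∈ S
        · apply hne
          rw [E.typeLe, ind_pos hS0, ind_pos hs, hse] at hS
          rw [E.typeVec_eq, ind_pos hS0, ind_pos hs, hse]
          refine ⟨rfl, ?_⟩
          have h5 : eraseNone S = ∅ := by
            rw [Finset.eq_empty_iff_forall_notMem]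
            intro j hj
            have h6 := hS.2 j
            have h7 : topCount G ∅ j = 0 := by simp [topCount]
            have h8 : topCount G (eraseNone S) j = 0 := by omega
            unfold topCount at h8
            rw [Set.ncard_eq_zero (Set.toFinite _)] at h8
            have h9 : j ∈ ({k | k ∈ eraseNone S ∧ Desir G k j} : Set N) := ⟨hj, fun _ _ _ h => h⟩
            rw [h8] at h9
            exact h9
          rw [h5]
        · rw [E.typeLe, ind_zero hS0, ind_pos hs, hse] at hS
          -- every top count of `S` is at most one, so `S` has at most one member: impossible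
          have h6 : ∀ j, topCount G (eraseNone S) j ≤ 1 := by
            intro j
            have h7 : topCount G ∅ j = 0 := by simp [topCount]
            have := hS.2 j
            omega
          have h8 : ∀ x y, x ∈ eraseNone S → y ∈ eraseNone S → Desir G x y → x = y := by
            intro x y hx hy hd
            by_contra hxy
            have h9 := h6 y
            have h10 : ({x, y} : Set N) ⊆ {k | k ∈ eraseNone S ∧ Desir G k y} := by
              rintro k (rfl | rfl)
              · exact ⟨hx, hd⟩
              · exact ⟨hy, fun _ _ _ h => h⟩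
            have h11 := Set.ncard_le_ncard h10 (Set.toFinite _)
            rw [Set.ncard_pair hxy] at h11
            unfold topCount at h9
            omega
          rcases (eraseNone S).eq_empty_or_nonempty with h9 | ⟨x, hx⟩
          · rw [h9] at h4
            exact G.empty_losing h4
          · have h10 : eraseNone S = {x} := by
              ext y
              rw [mem_singleton]
              constructor
              · intro hy
                rcases hc x y with h11 | h11
                · exact (h8 x y hx hy h11).symm
                · exact h8 y x hy hx h11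
              · rintro rfl; exact hx
            rw [h10] at h4
            exact h x h4
    · refine ⟨Or.inr h1, ?_⟩
      intro S hS hne hw
      rw [E.typeLe, ind_zero hn] at hS
      have hS0 : none ∉ S := by
        intro h4
        rw [ind_pos h4] at hS
        omega
      rcases hw with h4 | h4
      · exact hS0 h4
      · rw [ind_zero hS0] at hS
        refine h3 (eraseNone S) (fun i => by have := hS.2 i; omega) ?_ h4
        intro hh
        exact hne ((E.typeVec_eq _ _).mpr ⟨by rw [ind_zero hn, ind_zero hS0], hh⟩)


lemma ncard_up_image (A : Set (N → ℕ)) (B : Set (Option N → ℕ)) (f : (N → ℕ) → (Option N → ℕ))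
    (hf : Function.Injective f) (hB : B = f '' A) : B.ncard = A.ncard := by
  rw [hB, Set.ncard_image_of_injective _ hf]

/-- extend a type vector by a value at the new player -/
def extVec (e : ℕ) (v : N → ℕ) : Option N → ℕ
  | none => e
  | some i => v i

lemma extVec_injective (e : ℕ) : Function.Injective (extVec e : (N → ℕ) → _) := by
  intro v w h
  funext i
  exact congrFun h (some i)

lemma Ext.typeVec_extVec (E : Ext G G') (T : Finset (Option N)) :
    typeVec G' T = extVec (ind T) (typeVec G (eraseNone T)) := by
  funext i
  rcases i with _ | i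
  · exact E.typeVec_none T
  · exact E.typeVec_some T i

lemma vetoer_numShiftMin (G : SimpleGame N) (h : NoVetoer G) :
    numShiftMin (vetoer G) = numShiftMin G := by
  have E := ext_vetoer G h
  unfold numShiftMin
  refine ncard_up_image _ _ (extVec 1) (extVec_injective 1) ?_
  ext v
  constructor
  · rintro ⟨T, hT, rfl⟩
    rw [vetoer_shiftMin G h] at hT
    exact ⟨_, ⟨eraseNone T, hT.2, rfl⟩, by rw [E.typeVec_extVec, ind_pos hT.1]⟩
  · rintro ⟨_, ⟨S, hS, rfl⟩, rfl⟩
    refine ⟨insert none (up S), ?_, ?_⟩
    · rw [vetoer_shiftMin G h, eraseNone_insert_none', eraseNone_up]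
      exact ⟨mem_insert_self _ _, hS⟩
    · rw [E.typeVec_extVec, ind_pos (mem_insert_self _ _), eraseNone_insert_none', eraseNone_up]

lemma passer_numShiftMin (G : SimpleGame N) (h : NoPasser G) (hc : Complete G) :
    numShiftMin (passer G) = numShiftMin G + 1 := by
  have E := ext_passer G h
  unfold numShiftMin
  have h1 : {v | ∃ S, ShiftMin (passer G) S ∧ typeVec (passer G) S = v} =
      insert (typeVec (passer G) {none})
        (extVec 0 '' {v | ∃ S, ShiftMin G S ∧ typeVec G S = v}) := by
    ext v
    constructor
    · rintro ⟨T, hT, rfl⟩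
      rw [passer_shiftMin G h hc] at hT
      rcases hT with rfl | ⟨h2, h3⟩
      · exact Set.mem_insert _ _
      · exact Set.mem_insert_of_mem _ ⟨_, ⟨eraseNone T, h3, rfl⟩,
          by rw [E.typeVec_extVec, ind_zero h2]⟩
    · rintro (rfl | ⟨_, ⟨S, hS, rfl⟩, rfl⟩)
      · exact ⟨{none}, by rw [passer_shiftMin G h hc]; exact Or.inl rfl, rfl⟩
      · refine ⟨up S, ?_, ?_⟩
        · rw [passer_shiftMin G h hc, eraseNone_up]
          exact Or.inr ⟨none_notMem_up S, hS⟩
        · rw [E.typeVec_extVec, ind_zero (none_notMem_up S), eraseNone_up]
  have h2 : (extVec 0 '' {v | ∃ S, ShiftMin G S ∧ typeVec G S = v} :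
      Set (Option N → ℕ)).Finite := by
    apply Set.Finite.image
    apply Set.Finite.subset (Set.toFinite (Set.range fun S : Finset N => typeVec G S))
    rintro _ ⟨S, _, rfl⟩
    exact ⟨S, rfl⟩
  rw [h1, Set.ncard_insert_of_notMem _ h2, Set.ncard_image_of_injective _ (extVec_injective 0)]
  rintro ⟨w, _, hw⟩
  have := congrFun hw none
  rw [E.typeVec_none, ind_pos (mem_singleton_self _)] at this
  exact absurd this (by simp [extVec])

/-! ### Trades in the extensions -/

lemma trade_up {k : ℕ} {X Y : Fin k → Finset N} (h : Trade X Y) :
    Trade (fun i => up (X i)) (fun i => up (Y i)) := by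
  intro p
  rcases p with _ | p
  · simp [none_notMem_up]
  · simpa [some_mem_up] using h p

lemma trade_up_insert {k : ℕ} {X Y : Fin k → Finset N} (h : Trade X Y) :
    Trade (fun i => insert none (up (X i))) (fun i => insert none (up (Y i))) := by
  intro p
  rcases p with _ | p
  · simp
  · simpa [some_mem_up] using h p

lemma trade_erase {k : ℕ} {X Y : Fin k → Finset (Option N)} (h : Trade X Y) :
    Trade (fun i => eraseNone (X i)) (fun i => eraseNone (Y i)) := by
  intro p
  simpa using h (some p)

lemma trade_none {k : ℕ} {X Y : Fin k → Finset (Option N)} (h : Trade X Y)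
    (hY : ∀ i, none ∉ Y i) : ∀ i, none ∉ X i := by
  have h1 := h none
  have h2 : (univ.filter fun i => none ∈ Y i) = ∅ := by
    rw [filter_eq_empty_iff]; intro i _; exact hY i
  rw [h2, card_empty, card_eq_zero, filter_eq_empty_iff] at h1
  intro i; exact h1 (mem_univ i)

lemma trade_all {k : ℕ} {X Y : Fin k → Finset (Option N)} (h : Trade X Y)
    (hX : ∀ i, none ∈ X i) : ∀ i, none ∈ Y i := by
  have h1 := h none
  have h2 : (univ.filter fun i => none ∈ X i) = univ := by
    rw [filter_eq_self]; intro i _; exact hX i
  rw [h2] at h1
  have h3 := (card_eq_iff_eq_univ _).mp (h1.symm.trans (by simp))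
  intro i
  have : i ∈ (univ.filter fun i => none ∈ Y i) := by rw [h3]; exact mem_univ i
  exact (mem_filter.mp this).2

lemma passer_tradeRobust (G : SimpleGame N) (m : ℕ) :
    TradeRobust (passer G) m ↔ TradeRobust G m := by
  constructor
  · intro h k h1 h2 X Y hT hX
    obtain ⟨i, hi⟩ := h k h1 h2 _ _ (trade_up hT)
      (fun i => Or.inr (by rw [eraseNone_up]; exact hX i))
    refine ⟨i, ?_⟩
    rcases hi with hi | hi
    · exact absurd hi (none_notMem_up _)
    · rwa [eraseNone_up] at hi
  · intro h k h1 h2 X Y hT hX
    by_contra hY
    push Not at hY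
    have h3 : ∀ i, none ∉ Y i := fun i hi => hY i (Or.inl hi)
    have h4 := trade_none hT h3
    obtain ⟨i, hi⟩ := h k h1 h2 _ _ (trade_erase hT) (fun i => by
      rcases hX i with h5 | h5
      · exact absurd h5 (h4 i)
      · exact h5)
    exact hY i (Or.inr hi)

lemma vetoer_tradeRobust (G : SimpleGame N) (m : ℕ) :
    TradeRobust (vetoer G) m ↔ TradeRobust G m := by
  constructor
  · intro h k h1 h2 X Y hT hX
    obtain ⟨i, hi⟩ := h k h1 h2 _ _ (trade_up_insert hT)
      (fun i => ⟨mem_insert_self _ _, by rw [eraseNone_insert_none', eraseNone_up]; exact hX i⟩)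
    refine ⟨i, ?_⟩
    have := hi.2
    rwa [eraseNone_insert_none', eraseNone_up] at this
  · intro h k h1 h2 X Y hT hX
    have h4 := trade_all hT (fun i => (hX i).1)
    obtain ⟨i, hi⟩ := h k h1 h2 _ _ (trade_erase hT) (fun i => (hX i).2)
    exact ⟨i, h4 i, hi⟩

lemma vetoer_invTradeRobust (G : SimpleGame N) (hv : NoVetoer G) (m : ℕ) :
    InvTradeRobust (vetoer G) m ↔ InvTradeRobust G m := by
  constructor
  · intro h k h1 h2 X Y hT hX
    obtain ⟨i, hi⟩ := h k h1 h2 _ _ (trade_up_insert hT)
      (fun i => by
        rw [vetoer_shiftMin G hv, eraseNone_insert_none', eraseNone_up]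
        exact ⟨mem_insert_self _ _, hX i⟩)
    refine ⟨i, ?_⟩
    have := hi.2
    rwa [eraseNone_insert_none', eraseNone_up] at this
  · intro h k h1 h2 X Y hT hX
    have hX' : ∀ i, none ∈ X i ∧ ShiftMin G (eraseNone (X i)) := fun i =>
      (vetoer_shiftMin G hv _).mp (hX i)
    have h4 := trade_all hT (fun i => (hX' i).1)
    obtain ⟨i, hi⟩ := h k h1 h2 _ _ (trade_erase hT) (fun i => (hX' i).2)
    exact ⟨i, h4 i, hi⟩

lemma passer_invTradeRobust (G : SimpleGame N) (hp : NoPasser G) (hc : Complete G) (m : ℕ) :
    InvTradeRobust (passer G) m ↔ InvTradeRobust G m := by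
  constructor
  · intro h k h1 h2 X Y hT hX
    obtain ⟨i, hi⟩ := h k h1 h2 _ _ (trade_up hT)
      (fun i => by
        rw [passer_shiftMin G hp hc, eraseNone_up]
        exact Or.inr ⟨none_notMem_up _, hX i⟩)
    refine ⟨i, ?_⟩
    rcases hi with hi | hi
    · exact absurd hi (none_notMem_up _)
    · rwa [eraseNone_up] at hi
  · intro h k h1 h2 X Y hT hX
    by_contra hY
    push Not at hY
    have h3 : ∀ i, none ∉ Y i := fun i hi => hY i (Or.inl hi)
    have h4 := trade_none hT h3
    obtain ⟨i, hi⟩ := h k h1 h2 _ _ (trade_erase hT) (fun i => by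
      rcases (passer_shiftMin G hp hc _).mp (hX i) with h5 | h5
      · exact absurd (by rw [h5]; exact mem_singleton_self _) (h4 i)
      · exact h5.2)
    exact hY i (Or.inr hi)

/-! ### The side conditions alternate -/

lemma passer_noVetoer (G : SimpleGame N) : NoVetoer (passer G) := by
  intro x
  rcases x with _ | x
  · right
    have : eraseNone ((univ : Finset (Option N)).erase none) = univ := by ext y; simp
    rw [this]; exact G.all_winning
  · left; simp

lemma vetoer_noPasser (G : SimpleGame N) : NoPasser (vetoer G) := by
  rintro x ⟨h1, h2⟩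
  rw [mem_singleton] at h1
  rw [← h1] at h2
  have : eraseNone ({none} : Finset (Option N)) = ∅ := by ext x; simp
  rw [this] at h2
  exact G.empty_losing h2

end Pool.Agent.R90.Games
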