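import Pool.Agent.R90.Games

set_option autoImplicit false
set_option linter.unusedSectionVars false
set_option linter.unusedVariables false

/-!
# A family of complete simple games with four types and three shift-minimal winning types

For `c ≥ 2` the game `base c` has `c, c + 1, c + 2, c + 1` players of its four types. In terms of
the vector of the numbers of missing players of the four types its three shift-minimal winning types
are `(0, 0, c+1, 1)`, `(0, 1, 1, c)` and `(c, 0, 1, 0)`. The shortest trading transform from winning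
to losing coalitions has length exactly `c + 2`.
-/

namespace Pool.Agent.R90.Games

open Finset

/-- the numbers of players of the four types -/
def sz (c : ℕ) : Fin 4 → ℕ := ![c, c + 1, c + 2, c + 1]

/-- the players: pairs of a type and an index -/
abbrev Pl (c : ℕ) := Σ h : Fin 4, Fin (sz c h)

/-- the number of players of type `h` missing from `S` -/
def mis {c : ℕ} (S : Finset (Pl c)) (h : Fin 4) : ℕ :=
  (univ.filter fun a : Fin (sz c h) => (⟨h, a⟩ : Pl c) ∉ S).card

/-- winning in terms of the vector of missing players: the vector of partial sums is at most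
`(0, 0, c+1, c+2)` or at most `(0, 1, 2, c+2)` or at most `(c, c, c+1, c+1)`. -/
def WinV (c v0 v1 v2 v3 : ℕ) : Prop :=
  (v0 + v1 = 0 ∧ v0 + v1 + v2 ≤ c + 1 ∧ v0 + v1 + v2 + v3 ≤ c + 2) ∨
  (v0 = 0 ∧ v0 + v1 ≤ 1 ∧ v0 + v1 + v2 ≤ 2 ∧ v0 + v1 + v2 + v3 ≤ c + 2) ∨
  (v0 + v1 ≤ c ∧ v0 + v1 + v2 ≤ c + 1 ∧ v0 + v1 + v2 + v3 ≤ c + 1)

variable {c : ℕ}

lemma mis_anti {S T : Finset (Pl c)} (h : S ⊆ T) (i : Fin 4) : mis T i ≤ mis S i := by
  apply card_le_card
  intro a
  simp only [mem_filter, mem_univ, true_and]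
  exact fun h1 h2 => h1 (h h2)

lemma mis_le (S : Finset (Pl c)) (i : Fin 4) : mis S i ≤ sz c i := by
  calc mis S i ≤ (univ : Finset (Fin (sz c i))).card := card_filter_le _ _
    _ = sz c i := by simp

lemma mis_univ (i : Fin 4) : mis (univ : Finset (Pl c)) i = 0 := by
  simp [mis]

lemma mis_empty (i : Fin 4) : mis (∅ : Finset (Pl c)) i = sz c i := by
  simp [mis]

/-- the base game -/
def base (c : ℕ) : SimpleGame (Pl c) where
  Win S := WinV c (mis S 0) (mis S 1) (mis S 2) (mis S 3)
  mono S T h := by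
    have h0 := mis_anti h 0
    have h1 := mis_anti h 1
    have h2 := mis_anti h 2
    have h3 := mis_anti h 3
    unfold WinV
    omega
  empty_losing := by
    rw [mis_empty, mis_empty, mis_empty, mis_empty]
    simp only [sz, WinV, Matrix.cons_val_zero, Matrix.cons_val_one, Matrix.cons_val]
    omega
  all_winning := by
    rw [mis_univ, mis_univ, mis_univ, mis_univ]
    unfold WinV
    omega

lemma base_win (S : Finset (Pl c)) :
    (base c).Win S ↔ WinV c (mis S 0) (mis S 1) (mis S 2) (mis S 3) := Iff.rfl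

/-- the indicator of the type of `p` -/
def tyi (p : Pl c) (h : Fin 4) : ℕ := if p.1 = h then 1 else 0

lemma card_eq_pl (p : Pl c) (h : Fin 4) :
    (univ.filter fun a : Fin (sz c h) => (⟨h, a⟩ : Pl c) = p).card = tyi p h := by
  unfold tyi
  split_ifs with h1
  · subst h1
    have : (univ.filter fun a : Fin (sz c p.1) => (⟨p.1, a⟩ : Pl c) = p) = {p.2} := by
      ext a
      simp only [mem_filter, mem_univ, true_and, mem_singleton]
      constructor
      · intro h2
        have := congrArg (fun q : Pl c => q) h2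
        exact eq_of_heq (Sigma.mk.inj_iff.mp (by simpa using h2 : (⟨p.1, a⟩ : Pl c) = ⟨p.1, p.2⟩)).2
      · rintro rfl; rfl
    rw [this, card_singleton]
  · rw [card_eq_zero, filter_eq_empty_iff]
    intro a _ h2
    exact h1 (by rw [← h2])

lemma mis_insert {S : Finset (Pl c)} {p : Pl c} (hp : p ∉ S) (h : Fin 4) :
    mis (insert p S) h + tyi p h = mis S h := by
  rw [← card_eq_pl p h]
  unfold mis
  rw [← card_union_of_disjoint]
  · congr 1
    ext a
    simp only [mem_union, mem_filter, mem_univ, true_and, mem_insert, not_or]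
    constructor
    · rintro (h1 | h1)
      · exact h1.2
      · rw [h1]; exact hp
    · intro h1
      by_cases h2 : (⟨h, a⟩ : Pl c) = p
      · exact Or.inr h2
      · exact Or.inl ⟨h2, h1⟩
  · rw [disjoint_left]
    intro a
    simp only [mem_filter, mem_univ, true_and, mem_insert, not_or]
    exact fun h1 h2 => h1.1 h2

lemma tyi_sum (p : Pl c) : tyi p 0 + tyi p 1 + tyi p 2 + tyi p 3 = 1 := by
  unfold tyi
  have : ∀ h : Fin 4, ((if h = 0 then 1 else 0) + (if h = 1 then 1 else 0) +
      (if h = 2 then 1 else 0) + (if h = 3 then 1 else 0) : ℕ) = 1 := by decide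
  exact this p.1

/-- there is a coalition avoiding two given players with a prescribed vector of missing players -/
lemma exists_coal (x : Fin 4 → ℕ) (p q : Pl c) (hpq : p ≠ q)
    (hx : ∀ h, x h + tyi p h + tyi q h ≤ sz c h) :
    ∃ S : Finset (Pl c), p ∉ S ∧ q ∉ S ∧ ∀ h, mis S h = x h + tyi p h + tyi q h := by
  have h1 : ∀ h, ∃ A : Finset (Fin (sz c h)), A ⊆ (univ.filter fun a : Fin (sz c h) =>
      (⟨h, a⟩ : Pl c) ≠ p ∧ (⟨h, a⟩ : Pl c) ≠ q) ∧ A.card = x h := by
    intro h
    apply exists_subset_card_eq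
    have h2 := card_eq_pl p h
    have h3 := card_eq_pl q h
    have h4 : (univ : Finset (Fin (sz c h))).card ≤
        (univ.filter fun a : Fin (sz c h) => (⟨h, a⟩ : Pl c) ≠ p ∧ (⟨h, a⟩ : Pl c) ≠ q).card +
        (univ.filter fun a : Fin (sz c h) => (⟨h, a⟩ : Pl c) = p).card +
        (univ.filter fun a : Fin (sz c h) => (⟨h, a⟩ : Pl c) = q).card := by
      refine le_trans (card_le_card ?_) (le_trans (card_union_le _ _)
        (Nat.add_le_add_right (card_union_le _ _) _))
      intro a _
      simp only [mem_union, mem_filter, mem_univ, true_and]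
      tauto
    rw [card_univ, Fintype.card_fin, h2, h3] at h4
    have := hx h
    omega
  choose A hA1 hA2 using h1
  refine ⟨univ.filter fun r : Pl c => ¬ (r = p ∨ r = q ∨ r.2 ∈ A r.1), by simp, by simp, ?_⟩
  intro h
  rw [← hA2 h, ← card_eq_pl p h, ← card_eq_pl q h, ← card_union_of_disjoint,
    ← card_union_of_disjoint]
  · unfold mis
    congr 1
    ext a
    simp only [mem_union, mem_filter, mem_univ, true_and, not_not]
    tauto
  · rw [disjoint_left]
    intro a ha
    rw [mem_union] at ha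
    simp only [mem_filter, mem_univ, true_and] at ha ⊢
    rcases ha with ha | ha
    · have := hA1 h ha
      simp only [mem_filter, mem_univ, true_and] at this
      exact this.2
    · rw [ha]; exact hpq
  · rw [disjoint_left]
    intro a ha
    have := hA1 h ha
    simp only [mem_filter, mem_univ, true_and] at this ⊢
    exact this.1

/-- there is a coalition with a prescribed vector of missing players -/
lemma exists_coal' (x : Fin 4 → ℕ) (hx : ∀ h, x h ≤ sz c h) :
    ∃ S : Finset (Pl c), ∀ h, mis S h = x h := by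
  have h1 : ∀ h, ∃ A : Finset (Fin (sz c h)), A ⊆ (univ : Finset (Fin (sz c h))) ∧
      A.card = x h := by
    intro h
    apply exists_subset_card_eq
    rw [card_univ, Fintype.card_fin]
    exact hx h
  choose A hA1 hA2 using h1
  refine ⟨univ.filter fun r : Pl c => ¬ r.2 ∈ A r.1, ?_⟩
  intro h
  rw [← hA2 h]
  unfold mis
  congr 1
  ext a
  simp only [mem_filter, mem_univ, true_and, not_not]

lemma sz0 : sz c 0 = c := rfl
lemma sz1 : sz c 1 = c + 1 := rfl
lemma sz2 : sz c 2 = c + 2 := rfl
lemma sz3 : sz c 3 = c + 1 := rfl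

lemma base_desir (hc : 2 ≤ c) (p q : Pl c) : Desir (base c) p q ↔ p.1 ≤ q.1 := by
  constructor
  · intro hd
    by_contra hlt
    rw [not_le] at hlt
    -- `q.1 < p.1`; find a coalition showing that `q` is strictly more desirable
    have hpq : p ≠ q := by rintro rfl; exact lt_irrefl _ hlt
    obtain ⟨hp, p2⟩ := p
    obtain ⟨hq, q2⟩ := q
    -- the vector of missing players other than `p` and `q`
    have key : ∀ x : Fin 4 → ℕ, (∀ h, x h + tyi (⟨hp, p2⟩ : Pl c) h + tyi (⟨hq, q2⟩ : Pl c) h ≤ sz c h) →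
        WinV c (x 0 + tyi (⟨hp, p2⟩ : Pl c) 0) (x 1 + tyi (⟨hp, p2⟩ : Pl c) 1)
          (x 2 + tyi (⟨hp, p2⟩ : Pl c) 2) (x 3 + tyi (⟨hp, p2⟩ : Pl c) 3) →
        WinV c (x 0 + tyi (⟨hq, q2⟩ : Pl c) 0) (x 1 + tyi (⟨hq, q2⟩ : Pl c) 1)
          (x 2 + tyi (⟨hq, q2⟩ : Pl c) 2) (x 3 + tyi (⟨hq, q2⟩ : Pl c) 3) := by
      intro x hx hw
      obtain ⟨S, hS1, hS2, hS3⟩ := exists_coal x ⟨hp, p2⟩ ⟨hq, q2⟩ hpq hx
      have h1 : ∀ h, mis (insert (⟨hp, p2⟩ : Pl c) S) h = x h + tyi (⟨hq, q2⟩ : Pl c) h := by
        intro h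
        have := mis_insert hS1 h
        have h2 := hS3 h
        omega
      have h2 : ∀ h, mis (insert (⟨hq, q2⟩ : Pl c) S) h = x h + tyi (⟨hp, p2⟩ : Pl c) h := by
        intro h
        have := mis_insert hS2 h
        have h2 := hS3 h
        omega
      have h3 := hd S hS1 hS2
      rw [base_win, base_win, h1, h1, h1, h1, h2, h2, h2, h2] at h3
      exact h3 hw
    clear hd hpq
    have key2 : ∀ x : Fin 4 → ℕ,
        (x 0 + (if hp = 0 then 1 else 0) + (if hq = 0 then 1 else 0) ≤ c) →
        (x 1 + (if hp = 1 then 1 else 0) + (if hq = 1 then 1 else 0) ≤ c + 1) →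
        (x 2 + (if hp = 2 then 1 else 0) + (if hq = 2 then 1 else 0) ≤ c + 2) →
        (x 3 + (if hp = 3 then 1 else 0) + (if hq = 3 then 1 else 0) ≤ c + 1) →
        WinV c (x 0 + (if hp = 0 then 1 else 0)) (x 1 + (if hp = 1 then 1 else 0))
          (x 2 + (if hp = 2 then 1 else 0)) (x 3 + (if hp = 3 then 1 else 0)) →
        WinV c (x 0 + (if hq = 0 then 1 else 0)) (x 1 + (if hq = 1 then 1 else 0))
          (x 2 + (if hq = 2 then 1 else 0)) (x 3 + (if hq = 3 then 1 else 0)) := by
      intro x g0 g1 g2 g3 hw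
      refine key x ?_ hw
      intro h
      have : h = 0 ∨ h = 1 ∨ h = 2 ∨ h = 3 := by omega
      rcases this with rfl | rfl | rfl | rfl
      · exact g0
      · exact g1
      · exact g2
      · exact g3
    clear key
    have hcases : (hp = 1 ∧ hq = 0) ∨ (hp = 2 ∧ hq = 0) ∨ (hp = 3 ∧ hq = 0) ∨ (hp = 2 ∧ hq = 1) ∨
        (hp = 3 ∧ hq = 1) ∨ (hp = 3 ∧ hq = 2) := by
      simp only [] at hlt
      omega
    clear p2 q2 hlt
    rcases hcases with ⟨rfl, rfl⟩ | ⟨rfl, rfl⟩ | ⟨rfl, rfl⟩ | ⟨rfl, rfl⟩ | ⟨rfl, rfl⟩ | ⟨rfl, rfl⟩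
    · have := key2 ![0, 0, 1, c]
      simp [WinV] at this
      omega
    · have := key2 ![0, 1, 0, c]
      simp [WinV] at this
      omega
    · have := key2 ![0, 1, 1, c - 1]
      simp [WinV] at this
      omega
    · have := key2 ![0, 0, c, 1]
      simp [WinV] at this
      omega
    · have := key2 ![0, 0, c + 1, 0]
      simp [WinV] at this
      omega
    · have := key2 ![0, 1, 1, c - 1]
      simp [WinV] at this
      omega
  · intro hle S hp hq
    rw [base_win, base_win]
    have h0 := mis_insert hp 0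
    have h1 := mis_insert hp 1
    have h2 := mis_insert hp 2
    have h3 := mis_insert hp 3
    have g0 := mis_insert hq 0
    have g1 := mis_insert hq 1
    have g2 := mis_insert hq 2
    have g3 := mis_insert hq 3
    have t1 := tyi_sum p
    have t2 := tyi_sum q
    have t3 : tyi q 0 ≤ tyi p 0 := by
      unfold tyi; split_ifs with a b <;> omega
    have t4 : tyi q 0 + tyi q 1 ≤ tyi p 0 + tyi p 1 := by
      unfold tyi; split_ifs <;> omega
    have t5 : tyi q 0 + tyi q 1 + tyi q 2 ≤ tyi p 0 + tyi p 1 + tyi p 2 := by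
      unfold tyi; split_ifs <;> omega
    unfold WinV
    omega


lemma base_complete (hc : 2 ≤ c) : Complete (base c) := by
  intro p q
  rw [base_desir hc, base_desir hc]
  exact le_total _ _

/-- the number of members of type `h` -/
def cnt (S : Finset (Pl c)) (h : Fin 4) : ℕ := (S.filter fun p => p.1 = h).card

lemma cnt_add_mis (S : Finset (Pl c)) (h : Fin 4) : cnt S h + mis S h = sz c h := by
  have h1 : cnt S h = (univ.filter fun a : Fin (sz c h) => (⟨h, a⟩ : Pl c) ∈ S).card := by
    unfold cnt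
    symm
    apply card_bij (fun a _ => (⟨h, a⟩ : Pl c))
    · intro a ha
      simp only [mem_filter, mem_univ, true_and] at ha ⊢
      exact ⟨ha, trivial⟩
    · intro a _ b _ hab
      simpa using hab
    · rintro ⟨k, b⟩ hb
      simp only [mem_filter] at hb
      obtain ⟨hb, rfl⟩ := hb
      exact ⟨b, by simpa using hb, rfl⟩
  rw [h1]
  unfold mis
  rw [card_filter_add_card_filter_not, card_univ, Fintype.card_fin]

lemma typeOf_base (hc : 2 ≤ c) (p : Pl c) : typeOf (base c) p = {q | q.1 = p.1} := by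
  ext q
  simp only [typeOf, Set.mem_ofPred_eq, base_desir hc]
  constructor
  · rintro ⟨h1, h2⟩; exact le_antisymm h2 h1
  · intro h; exact ⟨h ▸ le_refl _, h ▸ le_refl _⟩

lemma typeVec_base (hc : 2 ≤ c) (S : Finset (Pl c)) (p : Pl c) :
    typeVec (base c) S p = cnt S p.1 := by
  unfold typeVec cnt
  rw [typeOf_base hc, ← Set.ncard_coe_finset]
  congr 1
  ext q
  simp

lemma topCount_base (hc : 2 ≤ c) (S : Finset (Pl c)) (p : Pl c) :
    topCount (base c) S p = (S.filter fun q => q.1 ≤ p.1).card := by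
  unfold topCount
  rw [← Set.ncard_coe_finset]
  congr 1
  ext q
  simp [base_desir hc]

lemma card_filter_le_sum (S : Finset (Pl c)) (h : Fin 4) :
    (S.filter fun q => q.1 ≤ h).card =
      (if (0 : Fin 4) ≤ h then cnt S 0 else 0) + (if (1 : Fin 4) ≤ h then cnt S 1 else 0) +
      (if (2 : Fin 4) ≤ h then cnt S 2 else 0) + (if (3 : Fin 4) ≤ h then cnt S 3 else 0) := by
  rw [card_eq_sum_card_fiberwise (f := fun q : Pl c => q.1) (t := univ) (fun _ _ => mem_univ _)]
  rw [Fin.sum_univ_four]
  unfold cnt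
  have : ∀ k : Fin 4, ((S.filter fun q => q.1 ≤ h).filter fun q => q.1 = k).card =
      if k ≤ h then (S.filter fun p => p.1 = k).card else 0 := by
    intro k
    rw [filter_filter]
    split_ifs with hk
    · congr 1
      ext q
      simp only [mem_filter]
      constructor
      · rintro ⟨a, _, b⟩; exact ⟨a, b⟩
      · rintro ⟨a, b⟩; exact ⟨a, b ▸ hk, b⟩
    · rw [card_eq_zero, filter_eq_empty_iff]
      rintro q _ ⟨a, b⟩
      exact hk (b ▸ a)
  rw [this, this, this, this]

lemma exists_type (hc : 2 ≤ c) (h : Fin 4) : ∃ p : Pl c, p.1 = h := by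
  have : 0 < sz c h := by
    have h4 : h = 0 ∨ h = 1 ∨ h = 2 ∨ h = 3 := by omega
    rcases h4 with rfl | rfl | rfl | rfl
    · rw [sz0]; omega
    · rw [sz1]; omega
    · rw [sz2]; omega
    · rw [sz3]; omega
  exact ⟨⟨h, ⟨0, this⟩⟩, rfl⟩

lemma typeLe_base (hc : 2 ≤ c) (S T : Finset (Pl c)) :
    TypeLe (base c) S T ↔ mis T 0 ≤ mis S 0 ∧ mis T 0 + mis T 1 ≤ mis S 0 + mis S 1 ∧
      mis T 0 + mis T 1 + mis T 2 ≤ mis S 0 + mis S 1 + mis S 2 ∧
      mis T 0 + mis T 1 + mis T 2 + mis T 3 ≤ mis S 0 + mis S 1 + mis S 2 + mis S 3 := by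
  have a0 := cnt_add_mis S 0
  have a1 := cnt_add_mis S 1
  have a2 := cnt_add_mis S 2
  have a3 := cnt_add_mis S 3
  have b0 := cnt_add_mis T 0
  have b1 := cnt_add_mis T 1
  have b2 := cnt_add_mis T 2
  have b3 := cnt_add_mis T 3
  have e01 : ¬ ((1 : Fin 4) ≤ 0) := by decide
  have e02 : ¬ ((2 : Fin 4) ≤ 0) := by decide
  have e03 : ¬ ((3 : Fin 4) ≤ 0) := by decide
  have e12 : ¬ ((2 : Fin 4) ≤ 1) := by decide
  have e13 : ¬ ((3 : Fin 4) ≤ 1) := by decide
  have e23 : ¬ ((3 : Fin 4) ≤ 2) := by decide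
  have f01 : (0 : Fin 4) ≤ 1 := by decide
  have f02 : (0 : Fin 4) ≤ 2 := by decide
  have f03 : (0 : Fin 4) ≤ 3 := by decide
  have f12 : (1 : Fin 4) ≤ 2 := by decide
  have f13 : (1 : Fin 4) ≤ 3 := by decide
  have f23 : (2 : Fin 4) ≤ 3 := by decide
  constructor
  · intro h
    obtain ⟨p0, q0⟩ := exists_type hc 0
    obtain ⟨p1, q1⟩ := exists_type hc 1
    obtain ⟨p2, q2⟩ := exists_type hc 2
    obtain ⟨p3, q3⟩ := exists_type hc 3
    have h0 := h p0
    have h1 := h p1
    have h2 := h p2
    have h3 := h p3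
    rw [topCount_base hc, topCount_base hc, card_filter_le_sum, card_filter_le_sum, q0,
      if_pos (le_refl _), if_neg e01, if_neg e02, if_neg e03,
      if_pos (le_refl _), if_neg e01, if_neg e02, if_neg e03] at h0
    rw [topCount_base hc, topCount_base hc, card_filter_le_sum, card_filter_le_sum, q1,
      if_pos f01, if_pos (le_refl _), if_neg e12, if_neg e13,
      if_pos f01, if_pos (le_refl _), if_neg e12, if_neg e13] at h1
    rw [topCount_base hc, topCount_base hc, card_filter_le_sum, card_filter_le_sum, q2,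
      if_pos f02, if_pos f12, if_pos (le_refl _), if_neg e23,
      if_pos f02, if_pos f12, if_pos (le_refl _), if_neg e23] at h2
    rw [topCount_base hc, topCount_base hc, card_filter_le_sum, card_filter_le_sum, q3,
      if_pos f03, if_pos f13, if_pos f23, if_pos (le_refl _),
      if_pos f03, if_pos f13, if_pos f23, if_pos (le_refl _)] at h3
    omega
  · rintro ⟨h0, h1, h2, h3⟩ p
    rw [topCount_base hc, topCount_base hc, card_filter_le_sum, card_filter_le_sum]
    have h4 : p.1 = 0 ∨ p.1 = 1 ∨ p.1 = 2 ∨ p.1 = 3 := by omega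
    rcases h4 with q | q | q | q
    · rw [q, if_pos (le_refl _), if_neg e01, if_neg e02, if_neg e03,
        if_pos (le_refl _), if_neg e01, if_neg e02, if_neg e03]
      omega
    · rw [q, if_pos f01, if_pos (le_refl _), if_neg e12, if_neg e13,
        if_pos f01, if_pos (le_refl _), if_neg e12, if_neg e13]
      omega
    · rw [q, if_pos f02, if_pos f12, if_pos (le_refl _), if_neg e23,
        if_pos f02, if_pos f12, if_pos (le_refl _), if_neg e23]
      omega
    · rw [q, if_pos f03, if_pos f13, if_pos f23, if_pos (le_refl _),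
        if_pos f03, if_pos f13, if_pos f23, if_pos (le_refl _)]
      omega

lemma typeVec_eq_base (hc : 2 ≤ c) (S T : Finset (Pl c)) :
    typeVec (base c) S = typeVec (base c) T ↔
      mis S 0 = mis T 0 ∧ mis S 1 = mis T 1 ∧ mis S 2 = mis T 2 ∧ mis S 3 = mis T 3 := by
  have key : ∀ h, cnt S h = cnt T h ↔ mis S h = mis T h := by
    intro h
    have := cnt_add_mis S h
    have := cnt_add_mis T h
    omega
  rw [← key, ← key, ← key, ← key]
  constructor
  · intro h
    have h1 : ∀ k, cnt S k = cnt T k := by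
      intro k
      obtain ⟨p, rfl⟩ := exists_type hc k
      have := congrFun h p
      rwa [typeVec_base hc, typeVec_base hc] at this
    exact ⟨h1 0, h1 1, h1 2, h1 3⟩
  · rintro ⟨h0, h1, h2, h3⟩
    funext p
    rw [typeVec_base hc, typeVec_base hc]
    have h4 : p.1 = 0 ∨ p.1 = 1 ∨ p.1 = 2 ∨ p.1 = 3 := by omega
    rcases h4 with q | q | q | q <;> rw [q] <;> assumption

/-- the missing vector of `S` is `(x0, x1, x2, x3)` -/
def HasMis (S : Finset (Pl c)) (x0 x1 x2 x3 : ℕ) : Prop :=
  mis S 0 = x0 ∧ mis S 1 = x1 ∧ mis S 2 = x2 ∧ mis S 3 = x3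

lemma exists_hasMis (x0 x1 x2 x3 : ℕ) (h0 : x0 ≤ c) (h1 : x1 ≤ c + 1) (h2 : x2 ≤ c + 2)
    (h3 : x3 ≤ c + 1) : ∃ S : Finset (Pl c), HasMis S x0 x1 x2 x3 := by
  obtain ⟨S, hS⟩ := exists_coal' (c := c) ![x0, x1, x2, x3] (by
    intro h
    have h4 : h = 0 ∨ h = 1 ∨ h = 2 ∨ h = 3 := by omega
    rcases h4 with rfl | rfl | rfl | rfl
    · exact h0
    · exact h1
    · exact h2
    · exact h3)
  exact ⟨S, hS 0, hS 1, hS 2, hS 3⟩

lemma base_shiftMin (hc : 2 ≤ c) (S : Finset (Pl c)) :
    ShiftMin (base c) S ↔ HasMis S 0 0 (c + 1) 1 ∨ HasMis S 0 1 1 c ∨ HasMis S c 0 1 0 := by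
  have m0 := mis_le S 0
  have m1 := mis_le S 1
  have m2 := mis_le S 2
  have m3 := mis_le S 3
  rw [sz0] at m0
  rw [sz1] at m1
  rw [sz2] at m2
  rw [sz3] at m3
  constructor
  · rintro ⟨h1, h2⟩
    have key : ∀ x0 x1 x2 x3 : ℕ, x0 ≤ c → x1 ≤ c + 1 → x2 ≤ c + 2 → x3 ≤ c + 1 →
        WinV c x0 x1 x2 x3 → mis S 0 ≤ x0 → mis S 0 + mis S 1 ≤ x0 + x1 →
        mis S 0 + mis S 1 + mis S 2 ≤ x0 + x1 + x2 →
        mis S 0 + mis S 1 + mis S 2 + mis S 3 ≤ x0 + x1 + x2 + x3 → HasMis S x0 x1 x2 x3 := by
      intro x0 x1 x2 x3 g0 g1 g2 g3 hw k0 k1 k2 k3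
      obtain ⟨T, t0, t1, t2, t3⟩ := exists_hasMis (c := c) x0 x1 x2 x3 g0 g1 g2 g3
      by_contra hne
      refine h2 T ?_ ?_ ?_
      · rw [typeLe_base hc, t0, t1, t2, t3]
        exact ⟨k0, k1, k2, k3⟩
      · intro h3
        rw [typeVec_eq_base hc] at h3
        obtain ⟨a, b, d, e⟩ := h3
        exact hne ⟨a.symm.trans t0, b.symm.trans t1, d.symm.trans t2, e.symm.trans t3⟩
      · rw [base_win, t0, t1, t2, t3]; exact hw
    rw [base_win] at h1
    rcases h1 with h1 | h1 | h1
    · left
      apply key <;> first | omega | (unfold WinV; omega)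
    · right; left
      apply key <;> first | omega | (unfold WinV; omega)
    · right; right
      apply key <;> first | omega | (unfold WinV; omega)
  · intro h
    refine ⟨?_, ?_⟩
    · rw [base_win]
      unfold WinV
      rcases h with ⟨a, b, d, e⟩ | ⟨a, b, d, e⟩ | ⟨a, b, d, e⟩ <;> omega
    · intro T hle hne hw
      apply hne
      rw [typeLe_base hc] at hle
      rw [base_win] at hw
      rw [typeVec_eq_base hc]
      unfold WinV at hw
      rcases h with ⟨a, b, d, e⟩ | ⟨a, b, d, e⟩ | ⟨a, b, d, e⟩ <;> omega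

lemma base_numShiftMin (hc : 2 ≤ c) : numShiftMin (base c) = 3 := by
  obtain ⟨S1, h1⟩ := exists_hasMis (c := c) 0 0 (c + 1) 1 (by omega) (by omega) (by omega) (by omega)
  obtain ⟨S2, h2⟩ := exists_hasMis (c := c) 0 1 1 c (by omega) (by omega) (by omega) (by omega)
  obtain ⟨S3, h3⟩ := exists_hasMis (c := c) c 0 1 0 (by omega) (by omega) (by omega) (by omega)
  unfold numShiftMin
  have : {v | ∃ S, ShiftMin (base c) S ∧ typeVec (base c) S = v} =
      {typeVec (base c) S1, typeVec (base c) S2, typeVec (base c) S3} := by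
    ext v
    simp only [Set.mem_ofPred_eq, Set.mem_insert_iff, Set.mem_singleton_iff]
    constructor
    · rintro ⟨S, hS, rfl⟩
      rw [base_shiftMin hc] at hS
      rw [typeVec_eq_base hc, typeVec_eq_base hc, typeVec_eq_base hc]
      unfold HasMis at h1 h2 h3 hS
      omega
    · rintro (rfl | rfl | rfl)
      · exact ⟨S1, (base_shiftMin hc S1).mpr (Or.inl h1), rfl⟩
      · exact ⟨S2, (base_shiftMin hc S2).mpr (Or.inr (Or.inl h2)), rfl⟩
      · exact ⟨S3, (base_shiftMin hc S3).mpr (Or.inr (Or.inr h3)), rfl⟩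
  rw [this]
  have e12 : typeVec (base c) S1 ≠ typeVec (base c) S2 := by
    rw [Ne, typeVec_eq_base hc]; unfold HasMis at h1 h2 h3; omega
  have e13 : typeVec (base c) S1 ≠ typeVec (base c) S3 := by
    rw [Ne, typeVec_eq_base hc]; unfold HasMis at h1 h2 h3; omega
  have e23 : typeVec (base c) S2 ≠ typeVec (base c) S3 := by
    rw [Ne, typeVec_eq_base hc]; unfold HasMis at h1 h2 h3; omega
  rw [Set.ncard_eq_three]
  exact ⟨_, _, _, e12, e13, e23, rfl⟩

lemma base_numTypes (hc : 2 ≤ c) : numTypes (base c) = 4 := by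
  unfold numTypes
  have h1 : Set.range (typeOf (base c)) = Set.range fun h : Fin 4 => {q : Pl c | q.1 = h} := by
    ext C
    constructor
    · rintro ⟨p, rfl⟩
      exact ⟨p.1, (typeOf_base hc p).symm⟩
    · rintro ⟨h, rfl⟩
      obtain ⟨p, rfl⟩ := exists_type hc h
      exact ⟨p, typeOf_base hc p⟩
  rw [h1, ← Set.image_univ, Set.ncard_image_of_injective]
  · simp [Set.ncard_univ]
  · intro h k hk
    obtain ⟨p, rfl⟩ := exists_type hc h
    have : p ∈ {q : Pl c | q.1 = p.1} := rfl
    simp only [] at hk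
    rw [hk] at this
    exact this

lemma base_noPasser (hc : 2 ≤ c) : NoPasser (base c) := by
  intro p
  have h0 := mis_insert (notMem_empty p) 0
  have h1 := mis_insert (notMem_empty p) 1
  have h2 := mis_insert (notMem_empty p) 2
  have h3 := mis_insert (notMem_empty p) 3
  rw [mis_empty] at h0 h1 h2 h3
  rw [sz0] at h0
  rw [sz1] at h1
  rw [sz2] at h2
  rw [sz3] at h3
  have t := tyi_sum p
  rw [base_win]
  rw [insert_empty_eq] at h0 h1 h2 h3
  unfold WinV
  omega

lemma base_noVetoer (hc : 2 ≤ c) : NoVetoer (base c) := by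
  intro p
  have h0 := mis_insert (notMem_erase p univ) 0
  have h1 := mis_insert (notMem_erase p univ) 1
  have h2 := mis_insert (notMem_erase p univ) 2
  have h3 := mis_insert (notMem_erase p univ) 3
  rw [insert_erase (mem_univ p), mis_univ] at h0 h1 h2 h3
  have t := tyi_sum p
  rw [base_win]
  unfold WinV
  omega


/-! ### Trade robustness of the base game -/

lemma mis_eq_sum (S : Finset (Pl c)) (h : Fin 4) :
    mis S h = ∑ a : Fin (sz c h), if (⟨h, a⟩ : Pl c) ∉ S then 1 else 0 := by
  unfold mis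
  rw [card_filter]

lemma trade_mis {k : ℕ} {X Y : Fin k → Finset (Pl c)} (hT : Trade X Y) (h : Fin 4) :
    ∑ i, mis (X i) h = ∑ i, mis (Y i) h := by
  have key : ∀ Z : Fin k → Finset (Pl c), ∑ i, mis (Z i) h +
      ∑ a : Fin (sz c h), (univ.filter fun i => (⟨h, a⟩ : Pl c) ∈ Z i).card = sz c h * k := by
    intro Z
    simp only [mis_eq_sum]
    rw [sum_comm, ← sum_add_distrib]
    have : ∀ a : Fin (sz c h), (∑ i : Fin k, if (⟨h, a⟩ : Pl c) ∉ Z i then 1 else 0) +
        (univ.filter fun i => (⟨h, a⟩ : Pl c) ∈ Z i).card = k := by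
      intro a
      rw [← card_filter, add_comm, card_filter_add_card_filter_not, card_univ, Fintype.card_fin]
    rw [sum_congr rfl (fun a _ => this a), sum_const, card_univ, Fintype.card_fin, smul_eq_mul]
  have h1 := key X
  have h2 := key Y
  have h3 : ∑ a : Fin (sz c h), (univ.filter fun i => (⟨h, a⟩ : Pl c) ∈ X i).card =
      ∑ a : Fin (sz c h), (univ.filter fun i => (⟨h, a⟩ : Pl c) ∈ Y i).card :=
    sum_congr rfl fun a _ => hT _
  omega

/-- the two linear functionals on losing vectors -/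
lemma lose_bounds (c v0 v1 v2 v3 : ℕ) (hc : 2 ≤ c) (h3 : v3 ≤ c + 1) (hl : ¬ WinV c v0 v1 v2 v3) :
    ∃ y : ℕ, y ≤ 1 ∧ c + 2 ≤ v0 + v1 + v2 + v3 + y ∧
      (c + 1) * (c + 2) + (c + 1) * c * y ≤
        (v0 + v1 + v2) + (c + 1) * (v0 + v1) + c * (v0 + v1 + v2 + v3) ∧
      (v0 = 0 → (c + 1) * (c + 2) ≤
        (v0 + v1 + v2) + (c - 1) * (v0 + v1) + c * (v0 + v1 + v2 + v3)) := by
  obtain ⟨d, rfl⟩ : ∃ d, c = d + 2 := ⟨c - 2, by omega⟩
  unfold WinV at hl
  have e : d + 2 - 1 = d + 1 := rfl
  rw [e]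
  obtain ⟨M2, hM2⟩ : ∃ M2, M2 = v0 + v1 := ⟨_, rfl⟩
  obtain ⟨M3, hM3⟩ : ∃ M3, M3 = v0 + v1 + v2 := ⟨_, rfl⟩
  obtain ⟨M4, hM4⟩ : ∃ M4, M4 = v0 + v1 + v2 + v3 := ⟨_, rfl⟩
  rw [← hM4, ← hM3, ← hM2] at hl ⊢
  have a1 : v0 ≤ M2 := by omega
  have a2 : M2 ≤ M3 := by omega
  have a3 : M3 ≤ M4 := by omega
  have a4 : M4 ≤ M3 + (d + 3) := by omega
  clear hM2 hM3 hM4
  by_cases hM : d + 4 ≤ M4
  · refine ⟨0, by omega, by omega, ?_, ?_⟩
    · -- `M4 ≥ d + 4`
      obtain ⟨e4, rfl⟩ := Nat.exists_eq_add_of_le hM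
      have h5 : d + 4 ≤ M3 + (d + 3) * M2 + (d + 2) * e4 := by
        rcases Nat.eq_zero_or_pos M2 with h6 | h6
        · subst h6
          rcases Nat.eq_zero_or_pos e4 with h7 | h7
          · subst h7; omega
          · have : d + 2 ≤ (d + 2) * e4 := Nat.le_mul_of_pos_right _ h7
            omega
        · have : d + 3 ≤ (d + 3) * M2 := Nat.le_mul_of_pos_right _ h6
          omega
      nlinarith
    · intro h0
      obtain ⟨e4, rfl⟩ := Nat.exists_eq_add_of_le hM
      have h5 : d + 4 ≤ M3 + (d + 1) * M2 + (d + 2) * e4 := by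
        rcases Nat.eq_zero_or_pos e4 with h7 | h7
        · subst h7
          rcases Nat.lt_or_ge M2 2 with h6 | h6
          · rcases Nat.eq_zero_or_pos M2 with h8 | h8
            · subst h8; omega
            · have : M2 = 1 := by omega
              subst this; omega
          · have : (d + 1) * 2 ≤ (d + 1) * M2 := Nat.mul_le_mul_left _ h6
            omega
        · have : d + 2 ≤ (d + 2) * e4 := Nat.le_mul_of_pos_right _ h7
          omega
      nlinarith
  · have h5 : M2 = d + 3 ∧ M3 = d + 3 ∧ M4 = d + 3 := by omega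
    obtain ⟨rfl, rfl, rfl⟩ := h5
    refine ⟨1, le_refl _, by omega, ?_, ?_⟩
    · nlinarith
    · intro _; nlinarith

lemma win_bounds (c v0 v1 v2 v3 : ℕ) (hc : 2 ≤ c) (hl : WinV c v0 v1 v2 v3) :
    ∃ x : ℕ, x ≤ 1 ∧ v0 + v1 + v2 + v3 + x ≤ c + 2 ∧
      (v0 + v1 + v2) + (c + 1) * (v0 + v1) + c * (v0 + v1 + v2 + v3) + x * (c + 2) ≤
        (c + 1) * (c + 2) + 1 + (c + 1) * c * x ∧
      (x = 0 → v0 = 0 ∧ (v0 + v1 + v2) + (c - 1) * (v0 + v1) + c * (v0 + v1 + v2 + v3) + 1 ≤
        (c + 1) * (c + 2)) := by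
  obtain ⟨d, rfl⟩ : ∃ d, c = d + 2 := ⟨c - 2, by omega⟩
  unfold WinV at hl
  have e : d + 2 - 1 = d + 1 := rfl
  rw [e]
  rcases hl with ⟨h1, h2, h3⟩ | ⟨h1, h2, h3, h4⟩ | ⟨h1, h2, h3⟩
  · refine ⟨0, by omega, by omega, ?_, ?_⟩
    · rw [h1]
      nlinarith
    · intro _
      refine ⟨by omega, ?_⟩
      rw [h1]
      nlinarith
  · refine ⟨0, by omega, by omega, ?_, ?_⟩
    · nlinarith
    · intro _
      refine ⟨h1, ?_⟩
      nlinarith
  · refine ⟨1, by omega, by omega, ?_, ?_⟩
    · nlinarith
    · intro h; omega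

lemma base_tradeRobust (hc : 2 ≤ c) : TradeRobust (base c) (c + 1) := by
  intro k hk1 hk2 X Y hT hX
  by_contra hY
  push Not at hY
  have t0 := trade_mis hT 0
  have t1 := trade_mis hT 1
  have t2 := trade_mis hT 2
  have t3 := trade_mis hT 3
  have hb : ∀ i, mis (Y i) 3 ≤ c + 1 := fun i => mis_le _ _
  choose y hy1 hy2 hy3 hy4 using fun i => lose_bounds c _ _ _ _ hc (hb i) (hY i)
  choose x hx1 hx2 hx3 hx4 using fun i => win_bounds c _ _ _ _ hc (hX i)
  have s1 : ∑ i : Fin k, (c + 2) ≤ ∑ i, (mis (Y i) 0 + mis (Y i) 1 + mis (Y i) 2 + mis (Y i) 3 + y i) :=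
    sum_le_sum fun i _ => hy2 i
  have s2 : ∑ i, (mis (X i) 0 + mis (X i) 1 + mis (X i) 2 + mis (X i) 3 + x i) ≤
      ∑ i : Fin k, (c + 2) := sum_le_sum fun i _ => hx2 i
  have s3 := sum_le_sum (s := (univ : Finset (Fin k))) fun i _ => hy3 i
  have s4 := sum_le_sum (s := (univ : Finset (Fin k))) fun i _ => hx3 i
  simp only [sum_add_distrib, ← mul_sum, ← sum_mul, sum_const, card_univ, Fintype.card_fin,
    smul_eq_mul] at s1 s2 s3 s4
  rw [t0, t1, t2, t3] at s2 s4
  have hxy : ∑ i, x i ≤ ∑ i, y i := by omega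
  have hx0 : ∑ i, x i = 0 := by
    by_contra hne
    have h1 : 1 ≤ ∑ i, x i := Nat.one_le_iff_ne_zero.mpr hne
    have h2 : (c + 1) * c * ∑ i, x i ≤ (c + 1) * c * ∑ i, y i := Nat.mul_le_mul_left _ hxy
    have h3 : c + 2 ≤ (∑ i, x i) * (c + 2) := Nat.le_mul_of_pos_left _ h1
    omega
  have hx0' : ∀ i, x i = 0 := fun i => (sum_eq_zero_iff.mp hx0) i (mem_univ i)
  have hv : ∀ i, mis (Y i) 0 = 0 := by
    have : ∑ i, mis (Y i) 0 = 0 := by
      rw [← t0]; exact sum_eq_zero fun i _ => (hx4 i (hx0' i)).1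
    exact fun i => (sum_eq_zero_iff.mp this) i (mem_univ i)
  have s5 := sum_le_sum (s := (univ : Finset (Fin k))) fun i _ => hy4 i (hv i)
  have s6 := sum_le_sum (s := (univ : Finset (Fin k))) fun i _ => (hx4 i (hx0' i)).2
  simp only [sum_add_distrib, ← mul_sum, sum_const, card_univ, Fintype.card_fin,
    smul_eq_mul] at s5 s6
  rw [t0, t1, t2, t3] at s6
  omega

/-- the missing players of the winning coalitions of the trading transform of length `c + 2` -/
def misX (c j : ℕ) (h : Fin 4) (a : ℕ) : Prop :=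
  (h = 0 ∧ j = c + 1) ∨ (h = 1 ∧ j < c + 1 ∧ a = j) ∨ (h = 2 ∧ a = j) ∨ (h = 3 ∧ j < c + 1 ∧ a ≠ j)

/-- the missing players of the losing coalitions of the trading transform of length `c + 2` -/
def misY (c j : ℕ) (h : Fin 4) (a : ℕ) : Prop :=
  (h = 0 ∧ a = j) ∨ (h = 1 ∧ j = c) ∨ (h = 2 ∧ j = c + 1) ∨ (h = 3 ∧ j < c)

instance (c j : ℕ) (h : Fin 4) (a : ℕ) : Decidable (misX c j h a) := by unfold misX; infer_instance
instance (c j : ℕ) (h : Fin 4) (a : ℕ) : Decidable (misY c j h a) := by unfold misY; infer_instance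

lemma misX0 (c j a : ℕ) : misX c j 0 a ↔ j = c + 1 := by simp [misX]
lemma misX1 (c j a : ℕ) : misX c j 1 a ↔ (j < c + 1 ∧ a = j) := by simp [misX]
lemma misX2 (c j a : ℕ) : misX c j 2 a ↔ a = j := by simp [misX]
lemma misX3 (c j a : ℕ) : misX c j 3 a ↔ (j < c + 1 ∧ a ≠ j) := by simp [misX]
lemma misY0 (c j a : ℕ) : misY c j 0 a ↔ a = j := by simp [misY]
lemma misY1 (c j a : ℕ) : misY c j 1 a ↔ j = c := by simp [misY]
lemma misY2 (c j a : ℕ) : misY c j 2 a ↔ j = c + 1 := by simp [misY]
lemma misY3 (c j a : ℕ) : misY c j 3 a ↔ j < c := by simp [misY]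

/-- the coalition with given missing players -/
def coal (c : ℕ) (P : Fin 4 → ℕ → Prop) [∀ h a, Decidable (P h a)] : Finset (Pl c) :=
  univ.filter fun p => ¬ P p.1 p.2.val

lemma mis_coal (P : Fin 4 → ℕ → Prop) [∀ h a, Decidable (P h a)] (h : Fin 4) :
    mis (coal c P) h = ((range (sz c h)).filter (P h)).card := by
  unfold mis coal
  rw [card_filter, card_filter]
  simp only [mem_filter, mem_univ, true_and, not_not]
  exact Fin.sum_univ_eq_sum_range (fun a => if P h a then 1 else 0) (sz c h)

lemma trade_of_mis {k : ℕ} {X Y : Fin k → Finset (Pl c)}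
    (h : ∀ p : Pl c, (univ.filter fun i => p ∉ X i).card = (univ.filter fun i => p ∉ Y i).card) :
    Trade X Y := by
  intro p
  have h1 := card_filter_add_card_filter_not (s := (univ : Finset (Fin k))) (fun i => p ∈ X i)
  have h2 := card_filter_add_card_filter_not (s := (univ : Finset (Fin k))) (fun i => p ∈ Y i)
  have h3 := h p
  omega

/-- the winning coalitions of the trading transform -/
def XX (c : ℕ) (i : Fin (c + 2)) : Finset (Pl c) := coal c (misX c i.val)

/-- the losing coalitions of the trading transform -/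
def YY (c : ℕ) (i : Fin (c + 2)) : Finset (Pl c) := coal c (misY c i.val)

lemma card_fin_filter (n : ℕ) (P : ℕ → Prop) [DecidablePred P] :
    (univ.filter fun i : Fin n => P i.val).card = ((range n).filter P).card := by
  rw [card_filter, card_filter]
  exact Fin.sum_univ_eq_sum_range (fun a => if P a then 1 else 0) n

lemma trade_XY : Trade (XX c) (YY c) := by
  apply trade_of_mis
  rintro ⟨h, a⟩
  have e1 : (univ.filter fun i : Fin (c + 2) => (⟨h, a⟩ : Pl c) ∉ XX c i).card =
      ((range (c + 2)).filter fun j => misX c j h a.val).card := by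
    rw [← card_fin_filter]
    congr 1
    ext i
    simp [XX, coal]
  have e2 : (univ.filter fun i : Fin (c + 2) => (⟨h, a⟩ : Pl c) ∉ YY c i).card =
      ((range (c + 2)).filter fun j => misY c j h a.val).card := by
    rw [← card_fin_filter]
    congr 1
    ext i
    simp [YY, coal]
  rw [e1, e2]
  have ha := a.isLt
  generalize a.val = b at *
  have h4 : h = 0 ∨ h = 1 ∨ h = 2 ∨ h = 3 := by omega
  rcases h4 with rfl | rfl | rfl | rfl
  · rw [sz0] at ha
    have f1 : ((range (c + 2)).filter fun j => misX c j 0 b) = {c + 1} := by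
      ext j; simp only [mem_filter, mem_range, misX0, mem_singleton]; omega
    have f2 : ((range (c + 2)).filter fun j => misY c j 0 b) = {b} := by
      ext j; simp only [mem_filter, mem_range, misY0, mem_singleton]; omega
    rw [f1, f2, card_singleton, card_singleton]
  · rw [sz1] at ha
    have f1 : ((range (c + 2)).filter fun j => misX c j 1 b) = {b} := by
      ext j; simp only [mem_filter, mem_range, misX1, mem_singleton]; omega
    have f2 : ((range (c + 2)).filter fun j => misY c j 1 b) = {c} := by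
      ext j; simp only [mem_filter, mem_range, misY1, mem_singleton]; omega
    rw [f1, f2, card_singleton, card_singleton]
  · rw [sz2] at ha
    have f1 : ((range (c + 2)).filter fun j => misX c j 2 b) = {b} := by
      ext j; simp only [mem_filter, mem_range, misX2, mem_singleton]; omega
    have f2 : ((range (c + 2)).filter fun j => misY c j 2 b) = {c + 1} := by
      ext j; simp only [mem_filter, mem_range, misY2, mem_singleton]; omega
    rw [f1, f2, card_singleton, card_singleton]
  · rw [sz3] at ha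
    have f1 : ((range (c + 2)).filter fun j => misX c j 3 b) = (range (c + 1)).erase b := by
      ext j; simp only [mem_filter, mem_range, misX3, mem_erase]; omega
    have f2 : ((range (c + 2)).filter fun j => misY c j 3 b) = range c := by
      ext j; simp only [mem_filter, mem_range, misY3]; omega
    rw [f1, f2, card_erase_of_mem (mem_range.mpr ha), card_range, card_range]
    rfl


lemma misXX (i : Fin (c + 2)) :
    HasMis (XX c i) 0 1 1 c ∨ HasMis (XX c i) c 0 1 0 := by
  have hi := i.isLt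
  unfold HasMis XX
  rw [mis_coal, mis_coal, mis_coal, mis_coal, sz0, sz1, sz2, sz3]
  generalize i.val = j at *
  by_cases hj : j < c + 1
  · left
    have f0 : ((range c).filter (misX c j 0)) = ∅ := by
      ext a; simp only [mem_filter, mem_range, misX0, notMem_empty, iff_false]; omega
    have f1 : ((range (c + 1)).filter (misX c j 1)) = {j} := by
      ext a; simp only [mem_filter, mem_range, misX1, mem_singleton]; omega
    have f2 : ((range (c + 2)).filter (misX c j 2)) = {j} := by
      ext a; simp only [mem_filter, mem_range, misX2, mem_singleton]; omega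
    have f3 : ((range (c + 1)).filter (misX c j 3)) = (range (c + 1)).erase j := by
      ext a; simp only [mem_filter, mem_range, misX3, mem_erase]; omega
    rw [f0, f1, f2, f3, card_erase_of_mem (mem_range.mpr hj), card_range, card_empty,
      card_singleton]
    exact ⟨rfl, rfl, rfl, rfl⟩
  · right
    have hj' : j = c + 1 := by omega
    subst hj'
    have f0 : ((range c).filter (misX c (c + 1) 0)) = range c := by
      ext a; simp only [mem_filter, mem_range, misX0]; tauto
    have f1 : ((range (c + 1)).filter (misX c (c + 1) 1)) = ∅ := by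
      ext a; simp only [mem_filter, mem_range, misX1, notMem_empty, iff_false]; omega
    have f2 : ((range (c + 2)).filter (misX c (c + 1) 2)) = {c + 1} := by
      ext a; simp only [mem_filter, mem_range, misX2, mem_singleton]; omega
    have f3 : ((range (c + 1)).filter (misX c (c + 1) 3)) = ∅ := by
      ext a; simp only [mem_filter, mem_range, misX3, notMem_empty, iff_false]; omega
    rw [f0, f1, f2, f3, card_range, card_empty, card_singleton]
    exact ⟨rfl, rfl, rfl, rfl⟩

lemma misYY (hc : 2 ≤ c) (i : Fin (c + 2)) : ¬ (base c).Win (YY c i) := by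
  have hi := i.isLt
  rw [base_win]
  unfold YY
  rw [mis_coal, mis_coal, mis_coal, mis_coal, sz0, sz1, sz2, sz3]
  generalize i.val = j at *
  rcases lt_trichotomy j c with hj | rfl | hj
  · have f0 : ((range c).filter (misY c j 0)) = {j} := by
      ext a; simp only [mem_filter, mem_range, misY0, mem_singleton]; omega
    have f1 : ((range (c + 1)).filter (misY c j 1)) = ∅ := by
      ext a; simp only [mem_filter, mem_range, misY1, notMem_empty, iff_false]; omega
    have f3 : ((range (c + 1)).filter (misY c j 3)) = range (c + 1) := by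
      ext a; simp only [mem_filter, mem_range, misY3]; omega
    rw [f0, f1, f3, card_singleton, card_range, card_empty]
    unfold WinV
    omega
  · have f1 : ((range (j + 1)).filter (misY j j 1)) = range (j + 1) := by
      ext a; simp only [mem_filter, mem_range, misY1]; tauto
    rw [f1, card_range]
    unfold WinV
    omega
  · have hj' : j = c + 1 := by omega
    subst hj'
    have f2 : ((range (c + 2)).filter (misY c (c + 1) 2)) = range (c + 2) := by
      ext a; simp only [mem_filter, mem_range, misY2]; tauto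
    rw [f2, card_range]
    unfold WinV
    omega

lemma base_not_invTradeRobust (hc : 2 ≤ c) : ¬ InvTradeRobust (base c) (c + 2) := by
  intro h
  obtain ⟨i, hi⟩ := h (c + 2) (by omega) (le_refl _) (XX c) (YY c) trade_XY (by
    intro i
    rw [base_shiftMin hc]
    exact Or.inr (misXX i))
  exact misYY hc i hi

lemma TradeRobust.inv {N : Type} [Fintype N] [DecidableEq N] {G : SimpleGame N} {m : ℕ}
    (h : TradeRobust G m) : InvTradeRobust G m :=
  fun k h1 h2 X Y hT hX => h k h1 h2 X Y hT fun i => (hX i).1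

lemma base_not_tradeRobust (hc : 2 ≤ c) : ¬ TradeRobust (base c) (c + 2) :=
  fun h => base_not_invTradeRobust hc h.inv


/-! ### More shift-minimal winning types, more types of players -/

/-- For every `s` there is a complete game with `3 + s` shift-minimal winning types whose shortest
trading transforms (and shortest invariant trading transforms) have length `c + 2`. -/
theorem exists_game_r (hc : 2 ≤ c) (s : ℕ) :
    ∃ (N : Type) (_ : Fintype N) (_ : DecidableEq N) (G : SimpleGame N), Complete G ∧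
      NoVetoer G ∧ numShiftMin G = 3 + s ∧ TradeRobust G (c + 1) ∧ ¬ TradeRobust G (c + 2) ∧
      ¬ InvTradeRobust G (c + 2) := by
  induction s with
  | zero =>
    exact ⟨Pl c, inferInstance, inferInstance, base c, base_complete hc, base_noVetoer hc,
      base_numShiftMin hc, base_tradeRobust hc, base_not_tradeRobust hc,
      base_not_invTradeRobust hc⟩
  | succ s ih =>
    obtain ⟨N, i1, i2, G, h1, h2, h3, h4, h5, h6⟩ := ih
    have c1 := (ext_vetoer G h2).complete h1
    have p1 := vetoer_noPasser G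
    refine ⟨Option (Option N), inferInstance, inferInstance, passer (vetoer G), ?_, ?_, ?_, ?_, ?_,
      ?_⟩
    · exact (ext_passer _ p1).complete c1
    · exact passer_noVetoer _
    · rw [passer_numShiftMin _ p1 c1, vetoer_numShiftMin G h2, h3]
      ring
    · rwa [passer_tradeRobust, vetoer_tradeRobust]
    · rwa [passer_tradeRobust, vetoer_tradeRobust]
    · rwa [passer_invTradeRobust _ p1 c1, vetoer_invTradeRobust G h2]

/-- For every `s` there is a complete game with `4 + s` types of players whose shortest trading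
transforms have length `c + 2`. -/
theorem exists_game_t (hc : 2 ≤ c) (s : ℕ) :
    ∃ (N : Type) (_ : Fintype N) (_ : DecidableEq N) (G : SimpleGame N), Complete G ∧
      (NoVetoer G ∨ NoPasser G) ∧ numTypes G = 4 + s ∧ TradeRobust G (c + 1) ∧
      ¬ TradeRobust G (c + 2) := by
  induction s with
  | zero =>
    exact ⟨Pl c, inferInstance, inferInstance, base c, base_complete hc, Or.inl (base_noVetoer hc),
      base_numTypes hc, base_tradeRobust hc, base_not_tradeRobust hc⟩
  | succ s ih =>
    obtain ⟨N, i1, i2, G, h1, h2, h3, h4, h5⟩ := ih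
    rcases h2 with h2 | h2
    · refine ⟨Option N, inferInstance, inferInstance, vetoer G, (ext_vetoer G h2).complete h1,
        Or.inr (vetoer_noPasser G), ?_, ?_, ?_⟩
      · rw [(ext_vetoer G h2).numTypes, h3]; ring
      · rwa [vetoer_tradeRobust]
      · rwa [vetoer_tradeRobust]
    · refine ⟨Option N, inferInstance, inferInstance, passer G, (ext_passer G h2).complete h1,
        Or.inl (passer_noVetoer G), ?_, ?_, ?_⟩
      · rw [(ext_passer G h2).numTypes, h3]; ring
      · rwa [passer_tradeRobust]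
      · rwa [passer_tradeRobust]

end Pool.Agent.R90.Games
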